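import Mathlib

/-!
# Characters of the `p`-adic integers
-/

set_option autoImplicit false

namespace Run7.h55.FG

variable {p : ℕ} [hp : Fact p.Prime] {k : Type} [Field k] [TopologicalSpace k] [T2Space k]

/-- continuous characters of `ℤ_p` are determined by the value at a topological generator -/
theorem char_ext {φ φ' : Multiplicative ℤ_[p] →* kˣ} (h : Continuous fun x => (φ x : k))
    (h' : Continuous fun x => (φ' x : k)) {b : ℤ_[p]}
    (hb : φ (Multiplicative.ofAdd b) = φ' (Multiplicative.ofAdd b)) (x : ℤ_[p]) :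
    φ (Multiplicative.ofAdd (x * b)) = φ' (Multiplicative.ofAdd (x * b)) := by
  have hc : Continuous fun x : ℤ_[p] => Multiplicative.ofAdd (x * b) :=
    continuous_ofAdd.comp (continuous_id.mul continuous_const)
  have h1 : (fun x : ℤ_[p] => (φ (Multiplicative.ofAdd (x * b)) : k)) =
      fun x : ℤ_[p] => (φ' (Multiplicative.ofAdd (x * b)) : k) := by
    refine DenseRange.equalizer (PadicInt.denseRange_natCast (p := p)) (h.comp hc) (h'.comp hc) ?_
    funext n
    change (φ (Multiplicative.ofAdd ((n : ℤ_[p]) * b)) : k) = (φ' (Multiplicative.ofAdd ((n : ℤ_[p]) * b)) : k)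
    rw [← nsmul_eq_mul, ofAdd_nsmul, map_pow, map_pow, hb]
  exact Units.ext (congrFun h1 x)

/-- there are only finitely many continuous characters of `ℤ_p` with a given value at a given element, not zero -/
theorem finite_chars {b : ℤ_[p]} (hb : b ≠ 0) (c : kˣ) :
    {φ : Multiplicative ℤ_[p] →* kˣ | (Continuous fun x => (φ x : k)) ∧ φ (Multiplicative.ofAdd b) = c}.Finite := by
  classical
  rcases Set.eq_empty_or_nonempty {φ : Multiplicative ℤ_[p] →* kˣ | (Continuous fun x => (φ x : k)) ∧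
    φ (Multiplicative.ofAdd b) = c} with h0 | ⟨φ₀, hφ₀, hφ₀b⟩
  · rw [h0]
    exact Set.finite_empty
  -- `b` divides a power of `p`
  obtain ⟨j, u, hu⟩ : ∃ (j : ℕ) (u : ℤ_[p]), u * b = (p : ℤ_[p]) ^ j := by
    refine ⟨b.valuation, ((PadicInt.unitCoeff hb)⁻¹ : ℤ_[p]ˣ), ?_⟩
    have h1 := PadicInt.unitCoeff_spec hb
    calc ((PadicInt.unitCoeff hb)⁻¹ : ℤ_[p]ˣ) * b
        = ((PadicInt.unitCoeff hb)⁻¹ : ℤ_[p]ˣ) * ((PadicInt.unitCoeff hb : ℤ_[p]) * (p : ℤ_[p]) ^ b.valuation) := by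
          rw [← h1]
      _ = (p : ℤ_[p]) ^ b.valuation := by rw [← mul_assoc, Units.inv_mul, one_mul]
  have hpow : (0 : ℕ) < p ^ j := pow_pos hp.out.pos j
  -- the possible values at `1`
  have hfin : {y : k | y ^ (p ^ j) = (φ₀ (Multiplicative.ofAdd 1) : k) ^ (p ^ j)}.Finite := by
    have h1 : (Polynomial.X ^ (p ^ j) - Polynomial.C ((φ₀ (Multiplicative.ofAdd 1) : k) ^ (p ^ j))) ≠ 0 :=
      Polynomial.X_pow_sub_C_ne_zero hpow _
    refine (Polynomial.X ^ (p ^ j) -
      Polynomial.C ((φ₀ (Multiplicative.ofAdd 1) : k) ^ (p ^ j))).roots.toFinset.finite_toSet.subset ?_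
    intro y hy
    rw [Finset.mem_coe, Multiset.mem_toFinset, Polynomial.mem_roots h1]
    have hy' : y ^ (p ^ j) = (φ₀ (Multiplicative.ofAdd 1) : k) ^ (p ^ j) := hy
    simp [hy']
  have hinj : Set.InjOn (fun φ : Multiplicative ℤ_[p] →* kˣ => (φ (Multiplicative.ofAdd 1) : k))
      {φ : Multiplicative ℤ_[p] →* kˣ | (Continuous fun x => (φ x : k)) ∧ φ (Multiplicative.ofAdd b) = c} := by
    rintro φ ⟨h1, -⟩ φ' ⟨h2, -⟩ h
    refine MonoidHom.ext fun x => ?_
    have h3 := char_ext h1 h2 (b := 1) (Units.ext h) (Multiplicative.toAdd x)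
    rw [mul_one] at h3
    exact h3
  refine Set.Finite.of_finite_image (hfin.subset ?_) hinj
  rintro _ ⟨φ, ⟨h1, h2⟩, rfl⟩
  have h3 := char_ext h1 hφ₀ (b := b) (h2.trans hφ₀b.symm) u
  rw [hu] at h3
  have h4 : ((p : ℤ_[p]) ^ j) = (p ^ j) • (1 : ℤ_[p]) := by
    rw [nsmul_eq_mul, mul_one, Nat.cast_pow]
  rw [h4, ofAdd_nsmul, map_pow, map_pow] at h3
  have h5 := congrArg Units.val h3
  rw [Units.val_pow_eq_pow_val, Units.val_pow_eq_pow_val] at h5
  exact h5

/-- the same for a power of the value -/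
theorem finite_chars_zpow {b : ℤ_[p]} (hb : b ≠ 0) {m : ℤ} (hm : m ≠ 0) (c : kˣ) :
    {φ : Multiplicative ℤ_[p] →* kˣ | (Continuous fun x => (φ x : k)) ∧
      φ (Multiplicative.ofAdd b) ^ m = c}.Finite := by
  have h1 : ((m : ℤ_[p]) * b) ≠ 0 := mul_ne_zero (by exact_mod_cast hm) hb
  refine (finite_chars h1 c).subset ?_
  rintro φ ⟨h2, h3⟩
  refine ⟨h2, ?_⟩
  rw [← zsmul_eq_mul, ofAdd_zsmul, map_zpow, h3]

end Run7.h55.FG
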