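import Pool.Agent.Run7.h427.DT.Sub

/-!
# Direct sums and intertwining matrices of matrix representations
-/

set_option autoImplicit false
set_option linter.unusedSectionVars false

namespace Run7.h55.FG

open Matrix Run7.h427.DS Run7.h427.DT Module

variable {G : Type} [Group G] {k : Type} [Field k] {a b n N : ℕ}

/-! ### the direct sum -/

/-- the direct sum of two matrices -/
def bm (A : Matrix (Fin a) (Fin a) k) (B : Matrix (Fin b) (Fin b) k) : Matrix (Fin (a + b)) (Fin (a + b)) k :=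
  (Matrix.fromBlocks A 0 0 B).submatrix finSumFinEquiv.symm finSumFinEquiv.symm

theorem bm_mul (A A' : Matrix (Fin a) (Fin a) k) (B B' : Matrix (Fin b) (Fin b) k) :
    bm A B * bm A' B' = bm (A * A') (B * B') := by
  unfold bm
  rw [Matrix.submatrix_mul_equiv, Matrix.fromBlocks_multiply]
  simp

theorem bm_one : bm (1 : Matrix (Fin a) (Fin a) k) (1 : Matrix (Fin b) (Fin b) k) = 1 := by
  unfold bm
  rw [Matrix.fromBlocks_one, Matrix.submatrix_one_equiv]

theorem charpoly_bm (A : Matrix (Fin a) (Fin a) k) (B : Matrix (Fin b) (Fin b) k) :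
    (bm A B).charpoly = A.charpoly * B.charpoly := by
  have h : bm A B = Matrix.reindex finSumFinEquiv finSumFinEquiv (Matrix.fromBlocks A 0 0 B) := rfl
  rw [h, Matrix.charpoly_reindex, Matrix.charpoly_fromBlocks_zero₁₂]

theorem trace_bm (A : Matrix (Fin a) (Fin a) k) (B : Matrix (Fin b) (Fin b) k) :
    (bm A B).trace = A.trace + B.trace := by
  have h : (bm A B).trace = (Matrix.fromBlocks A 0 0 B).trace := by
    unfold bm Matrix.trace
    exact Equiv.sum_comp finSumFinEquiv.symm (fun i => (Matrix.fromBlocks A 0 0 B).diag i)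
  rw [h]
  unfold Matrix.trace
  rw [Fintype.sum_sum_type]
  rfl

/-- the direct sum of two representations -/
noncomputable def blk (ρ : G →* GL (Fin a) k) (σ : G →* GL (Fin b) k) : G →* GL (Fin (a + b)) k :=
  MonoidHom.toHomUnits ⟨⟨fun g => bm (ρ g : Matrix (Fin a) (Fin a) k) (σ g : Matrix (Fin b) (Fin b) k), by
    rw [map_one, map_one, Units.val_one, Units.val_one, bm_one]⟩, fun g h => by
    dsimp only
    rw [map_mul, map_mul, Units.val_mul, Units.val_mul, bm_mul]⟩

theorem blk_apply (ρ : G →* GL (Fin a) k) (σ : G →* GL (Fin b) k) (g : G) :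
    (blk ρ σ g : Matrix (Fin (a + b)) (Fin (a + b)) k) =
      bm (ρ g : Matrix (Fin a) (Fin a) k) (σ g : Matrix (Fin b) (Fin b) k) := rfl

/-- the two parts of a vector -/
def fs (x : Fin (a + b) → k) : Fin a → k := fun i => x (Fin.castAdd b i)
def sn (x : Fin (a + b) → k) : Fin b → k := fun i => x (Fin.natAdd a i)

theorem ext_fs {x y : Fin (a + b) → k} (h : fs x = fs y) (h' : sn x = sn y) : x = y := by
  funext i
  refine Fin.addCases (fun i => ?_) (fun i => ?_) i
  · exact congrFun h i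
  · exact congrFun h' i

theorem fs_bm (A : Matrix (Fin a) (Fin a) k) (B : Matrix (Fin b) (Fin b) k) (x : Fin (a + b) → k) :
    fs (bm A B *ᵥ x) = A *ᵥ fs x := by
  funext i
  unfold fs bm Matrix.mulVec dotProduct
  rw [Fin.sum_univ_add]
  simp

theorem sn_bm (A : Matrix (Fin a) (Fin a) k) (B : Matrix (Fin b) (Fin b) k) (x : Fin (a + b) → k) :
    sn (bm A B *ᵥ x) = B *ᵥ sn x := by
  funext i
  unfold sn bm Matrix.mulVec dotProduct
  rw [Fin.sum_univ_add]
  simp

/-- the direct sum of vectors -/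
def jn (x : Fin a → k) (y : Fin b → k) : Fin (a + b) → k := Fin.append x y

theorem fs_jn (x : Fin a → k) (y : Fin b → k) : fs (jn x y) = x := by
  funext i
  exact Fin.append_left x y i

theorem sn_jn (x : Fin a → k) (y : Fin b → k) : sn (jn x y) = y := by
  funext i
  exact Fin.append_right x y i

theorem bm_jn (A : Matrix (Fin a) (Fin a) k) (B : Matrix (Fin b) (Fin b) k) (x : Fin a → k) (y : Fin b → k) :
    bm A B *ᵥ jn x y = jn (A *ᵥ x) (B *ᵥ y) := by
  refine ext_fs ?_ ?_
  · rw [fs_bm, fs_jn, fs_jn]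
  · rw [sn_bm, sn_jn, sn_jn]

theorem jn_fs_sn (x : Fin (a + b) → k) : jn (fs x) (sn x) = x := ext_fs (fs_jn _ _) (sn_jn _ _)

/-- every subspace which is stable under the matrices has a stable complement -/
def SemisF {Z : Type} (A : Z → Matrix (Fin n) (Fin n) k) : Prop :=
  ∀ W : Submodule k (Fin n → k), (∀ z, ∀ w ∈ W, A z *ᵥ w ∈ W) →
    ∃ W' : Submodule k (Fin n → k), (∀ z, ∀ w ∈ W', A z *ᵥ w ∈ W') ∧ IsCompl W W'

/-- direct sums of semisimple families of matrices are semisimple -/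
theorem semisF_bm {Z : Type} {ρ : Z → Matrix (Fin a) (Fin a) k} {σ : Z → Matrix (Fin b) (Fin b) k}
    (hρ : SemisF ρ) (hσ : SemisF σ) : SemisF fun z => bm (ρ z) (σ z) := by
  intro W hW
  -- the intersection with the first part
  let W₁ : Submodule k (Fin a → k) :=
    { carrier := {x | jn x (0 : Fin b → k) ∈ W}
      zero_mem' := by
        have h : jn (0 : Fin a → k) (0 : Fin b → k) = 0 := ext_fs (fs_jn _ _) (sn_jn _ _)
        change jn (0 : Fin a → k) (0 : Fin b → k) ∈ W
        rw [h]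
        exact W.zero_mem
      add_mem' := by
        intro x y hx hy
        have h : jn (x + y) (0 : Fin b → k) = jn x 0 + jn y 0 := by
          refine ext_fs ?_ ?_
          · rw [fs_jn]
            change x + y = fs (jn x 0) + fs (jn y 0)
            rw [fs_jn, fs_jn]
          · rw [sn_jn]
            change 0 = sn (jn x 0) + sn (jn y 0)
            rw [sn_jn, sn_jn, add_zero]
        change jn (x + y) (0 : Fin b → k) ∈ W
        rw [h]
        exact W.add_mem hx hy
      smul_mem' := by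
        intro c x hx
        have h : jn (c • x) (0 : Fin b → k) = c • jn x 0 := by
          refine ext_fs ?_ ?_
          · rw [fs_jn]
            change c • x = c • fs (jn x 0)
            rw [fs_jn]
          · rw [sn_jn]
            change 0 = c • sn (jn x 0)
            rw [sn_jn, smul_zero]
        change jn (c • x) (0 : Fin b → k) ∈ W
        rw [h]
        exact W.smul_mem c hx }
  have memW₁ : ∀ x, x ∈ W₁ ↔ jn x (0 : Fin b → k) ∈ W := fun x => Iff.rfl
  -- the projection to the second part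
  let W₂ : Submodule k (Fin b → k) :=
    { carrier := {y | ∃ x, jn x y ∈ W}
      zero_mem' := by
        refine ⟨0, ?_⟩
        have h : jn (0 : Fin a → k) (0 : Fin b → k) = 0 := ext_fs (fs_jn _ _) (sn_jn _ _)
        rw [h]
        exact W.zero_mem
      add_mem' := by
        rintro y y' ⟨x, hx⟩ ⟨x', hx'⟩
        refine ⟨x + x', ?_⟩
        have h : jn (x + x') (y + y') = jn x y + jn x' y' := by
          refine ext_fs ?_ ?_
          · rw [fs_jn]
            change _ = fs (jn x y) + fs (jn x' y')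
            rw [fs_jn, fs_jn]
          · rw [sn_jn]
            change _ = sn (jn x y) + sn (jn x' y')
            rw [sn_jn, sn_jn]
        rw [h]
        exact W.add_mem hx hx'
      smul_mem' := by
        rintro c y ⟨x, hx⟩
        refine ⟨c • x, ?_⟩
        have h : jn (c • x) (c • y) = c • jn x y := by
          refine ext_fs ?_ ?_
          · rw [fs_jn]
            change _ = c • fs (jn x y)
            rw [fs_jn]
          · rw [sn_jn]
            change _ = c • sn (jn x y)
            rw [sn_jn]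
        rw [h]
        exact W.smul_mem c hx }
  have memW₂ : ∀ y, y ∈ W₂ ↔ ∃ x, jn x y ∈ W := fun y => Iff.rfl
  obtain ⟨C₁, hC₁, hc₁⟩ := hρ W₁ (by
    intro g w hw
    rw [memW₁] at hw ⊢
    have h := hW g _ hw
    rw [bm_jn, Matrix.mulVec_zero] at h
    exact h)
  obtain ⟨C₂, hC₂, hc₂⟩ := hσ W₂ (by
    intro g w hw
    rw [memW₂] at hw ⊢
    obtain ⟨x, hx⟩ := hw
    have h := hW g _ hx
    rw [bm_jn] at h
    exact ⟨_, h⟩)
  let C : Submodule k (Fin (a + b) → k) :=
    { carrier := {z | fs z ∈ C₁ ∧ sn z ∈ C₂}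
      zero_mem' := ⟨C₁.zero_mem, C₂.zero_mem⟩
      add_mem' := fun {x y} hx hy => ⟨C₁.add_mem hx.1 hy.1, C₂.add_mem hx.2 hy.2⟩
      smul_mem' := fun c {x} hx => ⟨C₁.smul_mem c hx.1, C₂.smul_mem c hx.2⟩ }
  have memC : ∀ z, z ∈ C ↔ fs z ∈ C₁ ∧ sn z ∈ C₂ := fun z => Iff.rfl
  refine ⟨C, ?_, ?_⟩
  · intro g w hw
    rw [memC] at hw ⊢
    rw [fs_bm, sn_bm]
    exact ⟨hC₁ g _ hw.1, hC₂ g _ hw.2⟩
  · constructor
    · rw [disjoint_iff, eq_bot_iff]
      rintro w ⟨h1, h2⟩
      have h2' := (memC w).1 h2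
      have h3 : sn w ∈ W₂ := (memW₂ _).2 ⟨fs w, by rw [jn_fs_sn]; exact h1⟩
      have h4 : sn w = 0 := by
        have := hc₂.disjoint.le_bot ⟨h3, h2'.2⟩
        exact (Submodule.mem_bot k).1 this
      have h5 : fs w ∈ W₁ := by
        rw [memW₁, ← h4, jn_fs_sn]
        exact h1
      have h6 : fs w = 0 := by
        have := hc₁.disjoint.le_bot ⟨h5, h2'.1⟩
        exact (Submodule.mem_bot k).1 this
      rw [Submodule.mem_bot]
      exact ext_fs h6 h4
    · rw [codisjoint_iff, eq_top_iff]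
      intro w _
      have h1 : sn w ∈ W₂ ⊔ C₂ := by rw [hc₂.sup_eq_top]; exact Submodule.mem_top
      obtain ⟨y, hy, c₂, hc₂', h2⟩ := Submodule.mem_sup.1 h1
      obtain ⟨x, hx⟩ := (memW₂ y).1 hy
      have h3 : fs w - x ∈ W₁ ⊔ C₁ := by rw [hc₁.sup_eq_top]; exact Submodule.mem_top
      obtain ⟨u, hu, c₁, hc₁', h4⟩ := Submodule.mem_sup.1 h3
      refine Submodule.mem_sup.2 ⟨jn x y + jn u 0, W.add_mem hx ((memW₁ u).1 hu), jn c₁ c₂, ?_, ?_⟩
      · rw [memC, fs_jn, sn_jn]
        exact ⟨hc₁', hc₂'⟩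
      · refine ext_fs ?_ ?_
        · change fs (jn x y) + fs (jn u 0) + fs (jn c₁ c₂) = fs w
          rw [fs_jn, fs_jn, fs_jn, add_assoc, h4, add_sub_cancel]
        · change sn (jn x y) + sn (jn u 0) + sn (jn c₁ c₂) = sn w
          rw [sn_jn, sn_jn, sn_jn, add_zero, h2]

/-- the direct sum of semisimple representations is semisimple -/
theorem semis_blk {ρ : G →* GL (Fin a) k} {σ : G →* GL (Fin b) k} (hρ : Semis ρ) (hσ : Semis σ) :
    Semis (blk ρ σ) :=
  semisF_bm (ρ := fun g => (ρ g : Matrix (Fin a) (Fin a) k)) (σ := fun g => (σ g : Matrix (Fin b) (Fin b) k)) hρ hσ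

/-! ### irreducible representations -/

/-- `ρ` is irreducible -/
def Irr (ρ : G →* GL (Fin n) k) : Prop :=
  0 < n ∧ ∀ W : Submodule k (Fin n → k), Stab ρ W → W = ⊥ ∨ W = ⊤

theorem Irr.semis {ρ : G →* GL (Fin n) k} (h : Irr ρ) : Semis ρ := by
  intro W hW
  rcases h.2 W hW with rfl | rfl
  · exact ⟨⊤, fun _ _ _ => Submodule.mem_top, isCompl_bot_top⟩
  · exact ⟨⊥, fun g w hw => by
      rw [(Submodule.mem_bot k).1 hw, Matrix.mulVec_zero]
      exact Submodule.zero_mem _, isCompl_top_bot⟩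

/-- `ρ` occurs in `σ`: there is a nonzero intertwining matrix -/
def Occ (ρ : G →* GL (Fin n) k) (σ : G →* GL (Fin N) k) : Prop :=
  ∃ I : Matrix (Fin N) (Fin n) k, I ≠ 0 ∧
    ∀ g, (σ g : Matrix (Fin N) (Fin N) k) * I = I * (ρ g : Matrix (Fin n) (Fin n) k)

theorem Occ.conj {ρ : G →* GL (Fin n) k} {σ σ' : G →* GL (Fin N) k} (h : Occ ρ σ) (A : GL (Fin N) k)
    (hA : ∀ g, σ' g = A * σ g * A⁻¹) : Occ ρ σ' := by
  obtain ⟨I, hI, hI'⟩ := h
  have h1 : ((A⁻¹ : GL (Fin N) k) : Matrix (Fin N) (Fin N) k) * ((A : Matrix (Fin N) (Fin N) k) * I) = I := by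
    rw [← Matrix.mul_assoc, ← Units.val_mul, inv_mul_cancel, Units.val_one, Matrix.one_mul]
  refine ⟨(A : Matrix (Fin N) (Fin N) k) * I, ?_, fun g => ?_⟩
  · intro h0
    rw [h0, Matrix.mul_zero] at h1
    exact hI h1.symm
  · rw [hA, Units.val_mul, Units.val_mul, Matrix.mul_assoc, h1, Matrix.mul_assoc, hI', Matrix.mul_assoc]

theorem Occ.of_blk {ρ : G →* GL (Fin n) k} {σ : G →* GL (Fin a) k} {τ : G →* GL (Fin b) k} (h : Occ ρ (blk σ τ)) :
    Occ ρ σ ∨ Occ ρ τ := by
  obtain ⟨I, hI, hI'⟩ := h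
  have hcol : ∀ g j, (blk σ τ g : Matrix (Fin (a + b)) (Fin (a + b)) k) *ᵥ (fun i => I i j) =
      fun i => (I * (ρ g : Matrix (Fin n) (Fin n) k)) i j := by
    intro g j
    rw [← hI']
    funext i
    rfl
  let I₁ : Matrix (Fin a) (Fin n) k := Matrix.of fun i j => I (Fin.castAdd b i) j
  let I₂ : Matrix (Fin b) (Fin n) k := Matrix.of fun i j => I (Fin.natAdd a i) j
  by_cases h1 : I₁ = 0
  · right
    refine ⟨I₂, ?_, fun g => ?_⟩
    · intro h2
      apply hI
      ext i j
      refine Fin.addCases (fun i => ?_) (fun i => ?_) i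
      · exact congrFun (congrFun h1 i) j
      · exact congrFun (congrFun h2 i) j
    · ext i j
      have h3 := congrArg sn (hcol g j)
      rw [blk_apply, sn_bm] at h3
      exact congrFun h3 i
  · left
    refine ⟨I₁, h1, fun g => ?_⟩
    ext i j
    have h3 := congrArg fs (hcol g j)
    rw [blk_apply, fs_bm] at h3
    exact congrFun h3 i

theorem occ_left (ρ : G →* GL (Fin a) k) (σ : G →* GL (Fin b) k) (ha : 0 < a) : Occ ρ (blk ρ σ) := by
  refine ⟨Matrix.of fun i j => jn (fun i' => (1 : Matrix (Fin a) (Fin a) k) i' j) (0 : Fin b → k) i, ?_, fun g => ?_⟩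
  · intro h
    have h1 := congrFun (congrFun h (Fin.castAdd b ⟨0, ha⟩)) ⟨0, ha⟩
    have h2 := congrFun (fs_jn (fun i' => (1 : Matrix (Fin a) (Fin a) k) i' ⟨0, ha⟩) (0 : Fin b → k)) ⟨0, ha⟩
    rw [Matrix.one_apply_eq] at h2
    have h3 : (1 : k) = 0 := h2.symm.trans h1
    exact one_ne_zero h3
  · ext i j
    have h1 : (bm (ρ g : Matrix (Fin a) (Fin a) k) (σ g : Matrix (Fin b) (Fin b) k) *ᵥ
        jn (fun i' => (1 : Matrix (Fin a) (Fin a) k) i' j) (0 : Fin b → k)) =
        jn (fun i' => (ρ g : Matrix (Fin a) (Fin a) k) i' j) 0 := by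
      rw [bm_jn, Matrix.mulVec_zero]
      congr 1
      funext i'
      have := congrFun (congrFun (Matrix.mul_one (ρ g : Matrix (Fin a) (Fin a) k)) i') j
      exact this
    have h2 := congrFun h1 i
    change _ = _ at h2
    rw [blk_apply]
    refine h2.trans ?_
    rw [Matrix.mul_apply]
    refine Fin.addCases (fun i => ?_) (fun i => ?_) i
    · have h3 := congrFun (fs_jn (fun i' => (ρ g : Matrix (Fin a) (Fin a) k) i' j) (0 : Fin b → k)) i
      refine h3.trans ?_
      have h4 : ∀ l, Matrix.of (fun i j => jn (fun i' => (1 : Matrix (Fin a) (Fin a) k) i' j) (0 : Fin b → k) i)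
          (Fin.castAdd b i) l = (1 : Matrix (Fin a) (Fin a) k) i l := fun l =>
        congrFun (fs_jn (fun i' => (1 : Matrix (Fin a) (Fin a) k) i' l) (0 : Fin b → k)) i
      simp only [h4]
      have h5 := congrFun (congrFun (Matrix.one_mul (ρ g : Matrix (Fin a) (Fin a) k)) i) j
      rw [Matrix.mul_apply] at h5
      exact h5.symm
    · have h3 := congrFun (sn_jn (fun i' => (ρ g : Matrix (Fin a) (Fin a) k) i' j) (0 : Fin b → k)) i
      refine h3.trans ?_
      have h4 : ∀ l, Matrix.of (fun i j => jn (fun i' => (1 : Matrix (Fin a) (Fin a) k) i' j) (0 : Fin b → k) i)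
          (Fin.natAdd a i) l = 0 := fun l =>
        congrFun (sn_jn (fun i' => (1 : Matrix (Fin a) (Fin a) k) i' l) (0 : Fin b → k)) i
      simp only [h4, zero_mul, Finset.sum_const_zero, Pi.zero_apply]

theorem occ_right {ρ : G →* GL (Fin n) k} (σ : G →* GL (Fin a) k) {τ : G →* GL (Fin b) k} (h : Occ ρ τ) :
    Occ ρ (blk σ τ) := by
  obtain ⟨I, hI, hI'⟩ := h
  refine ⟨Matrix.of fun i j => jn (0 : Fin a → k) (fun i' => I i' j) i, ?_, fun g => ?_⟩
  · intro h
    apply hI
    ext i j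
    have h1 := congrFun (congrFun h (Fin.natAdd a i)) j
    exact (congrFun (sn_jn (0 : Fin a → k) (fun i' => I i' j)) i).symm.trans h1
  · ext i j
    have h1 : (bm (σ g : Matrix (Fin a) (Fin a) k) (τ g : Matrix (Fin b) (Fin b) k) *ᵥ
        jn (0 : Fin a → k) (fun i' => I i' j)) =
        jn (0 : Fin a → k) (fun i' => (I * (ρ g : Matrix (Fin n) (Fin n) k)) i' j) := by
      rw [bm_jn, Matrix.mulVec_zero, ← hI']
      rfl
    have h2 := congrFun h1 i
    rw [blk_apply]
    refine Eq.trans h2 ?_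
    rw [Matrix.mul_apply]
    refine Fin.addCases (fun i => ?_) (fun i => ?_) i
    · have h3 := congrFun (fs_jn (0 : Fin a → k) (fun i' => (I * (ρ g : Matrix (Fin n) (Fin n) k)) i' j)) i
      refine h3.trans ?_
      have h4 : ∀ l, Matrix.of (fun i j => jn (0 : Fin a → k) (fun i' => I i' j) i)
          (Fin.castAdd b i) l = 0 := fun l => congrFun (fs_jn (0 : Fin a → k) (fun i' => I i' l)) i
      simp only [h4, zero_mul, Finset.sum_const_zero, Pi.zero_apply]
    · have h3 := congrFun (sn_jn (0 : Fin a → k) (fun i' => (I * (ρ g : Matrix (Fin n) (Fin n) k)) i' j)) i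
      refine h3.trans ?_
      have h4 : ∀ l, Matrix.of (fun i j => jn (0 : Fin a → k) (fun i' => I i' j) i)
          (Fin.natAdd a i) l = I i l := fun l => congrFun (sn_jn (0 : Fin a → k) (fun i' => I i' l)) i
      simp only [h4, Matrix.mul_apply]

/-- Schur: irreducible representations with a nonzero intertwining matrix have the same trace -/
theorem Occ.trace_eq {ρ : G →* GL (Fin n) k} {σ : G →* GL (Fin N) k} (hρ : Irr ρ) (hσ : Irr σ) (h : Occ ρ σ) :
    ∀ g, (ρ g : Matrix (Fin n) (Fin n) k).trace = (σ g : Matrix (Fin N) (Fin N) k).trace := by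
  obtain ⟨I, hI, hI'⟩ := h
  have hint : ∀ g x, (σ g : Matrix (Fin N) (Fin N) k) *ᵥ (I *ᵥ x) = I *ᵥ ((ρ g : Matrix (Fin n) (Fin n) k) *ᵥ x) := by
    intro g x
    rw [Matrix.mulVec_mulVec, hI', Matrix.mulVec_mulVec]
  have hker : LinearMap.ker (Matrix.toLin' I) = ⊥ := by
    rcases hρ.2 (LinearMap.ker (Matrix.toLin' I)) (by
      intro g w hw
      rw [LinearMap.mem_ker, Matrix.toLin'_apply] at hw ⊢
      rw [← hint, hw, Matrix.mulVec_zero]) with h | h
    · exact h
    · exfalso
      apply hI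
      apply Matrix.toLin'.injective
      rw [map_zero]
      exact LinearMap.ker_eq_top.1 h
  have hrange : LinearMap.range (Matrix.toLin' I) = ⊤ := by
    rcases hσ.2 (LinearMap.range (Matrix.toLin' I)) (by
      rintro g _ ⟨w, rfl⟩
      rw [Matrix.toLin'_apply]
      exact ⟨(ρ g : Matrix (Fin n) (Fin n) k) *ᵥ w, by rw [Matrix.toLin'_apply, hint]⟩) with h | h
    · exfalso
      apply hI
      apply Matrix.toLin'.injective
      rw [map_zero]
      exact LinearMap.range_eq_bot.1 h
    · exact h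
  let e : (Fin n → k) ≃ₗ[k] (Fin N → k) :=
    LinearEquiv.ofBijective (Matrix.toLin' I) ⟨LinearMap.ker_eq_bot.1 hker, LinearMap.range_eq_top.1 hrange⟩
  intro g
  rw [← Matrix.trace_toLin'_eq, ← Matrix.trace_toLin'_eq]
  have h1 : Matrix.toLin' (σ g : Matrix (Fin N) (Fin N) k) = e.conj (Matrix.toLin' (ρ g : Matrix (Fin n) (Fin n) k)) := by
    apply LinearMap.ext
    intro y
    obtain ⟨x, rfl⟩ := e.surjective y
    rw [LinearEquiv.conj_apply_apply, LinearEquiv.symm_apply_apply, Matrix.toLin'_apply, Matrix.toLin'_apply]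
    exact hint g x
  rw [h1, LinearMap.trace_conj']

end Run7.h55.FG
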