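import Mathlib

/-!
# Liftings at few twists: the core

Abstract data of automorphic or Galois representations (irreducible objects, their
parameters, twists, and the property that direct sums are determined by
their Satake parameters), and the main counting lemma.
-/

set_option autoImplicit false
set_option linter.unusedSectionVars false

open Finset

namespace Run7.h55.FG

/-- Automorphic data. `P` is a set of finite places of a global field `K` (all places outside a finite set, for example),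
and `X` is the group of the quasi-characters of `𝔸ˣ / Kˣ` unramified on `P`. -/
structure Data (P X Ug : Type) [CommGroup X] [CommGroup Ug] where
  /-- the value of a quasi-character at a uniformizer at `v` -/
  value : X →* (P → Ug)
  /-- the cuspidal automorphic representations (not necessarily unitary) of `GL(m, 𝔸)`, `m ≥ 1`, which are unramified
  on `P` -/
  Rep : Type
  /-- the number `m` -/
  deg : Rep → ℕ
  deg_pos : ∀ τ, 0 < deg τ
  /-- the Satake parameter at `v`, a multiset of `m` nonzero complex numbers -/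
  sat : Rep → P → Multiset Ug
  card_sat : ∀ τ v, Multiset.card (sat τ v) = deg τ
  /-- the twist by a quasi-character -/
  twist : X → Rep → Rep
  sat_twist : ∀ χ τ v, sat (twist χ τ) v = (sat τ v).map fun β => value χ v * β
  /-- Jacquet and Shalika: the Satake parameters on `P` determine the cuspidal constituents of an isobaric sum -/
  isobaric : ∀ S T : Multiset Rep,
    (∀ v, (S.map fun τ => sat τ v).sum = (T.map fun τ => sat τ v).sum) → S = T

variable {P X Ug : Type} [CommGroup X] [CommGroup Ug] [DecidableEq Ug]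

/-- the multiset `a A` -/
def scale (a : Ug) (A : Multiset Ug) : Multiset Ug := A.map fun β => a * β

theorem scale_scale (a b : Ug) (A : Multiset Ug) : scale a (scale b A) = scale (a * b) A := by
  unfold scale
  rw [Multiset.map_map]
  refine Multiset.map_congr rfl fun β _ => ?_
  simp only [Function.comp_apply, mul_assoc]

theorem scale_one (A : Multiset Ug) : scale 1 A = A := by
  unfold scale
  simp

theorem scale_zero (a : Ug) : scale a 0 = 0 := rfl

theorem scale_add (a : Ug) (A B : Multiset Ug) : scale a (A + B) = scale a A + scale a B := Multiset.map_add _ _ _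

theorem scale_sum {J : Type} (a : Ug) (s : Finset J) (A : J → Multiset Ug) :
    scale a (∑ j ∈ s, A j) = ∑ j ∈ s, scale a (A j) := by
  classical
  refine Finset.induction_on s ?_ fun j s hj ih => ?_
  · rw [Finset.sum_empty, Finset.sum_empty, scale_zero]
  · rw [Finset.sum_insert hj, Finset.sum_insert hj, scale_add, ih]

theorem card_scale (a : Ug) (A : Multiset Ug) : Multiset.card (scale a A) = Multiset.card A := Multiset.card_map _ _

theorem count_scale (a b : Ug) (A : Multiset Ug) : Multiset.count (a * b) (scale a A) = Multiset.count b A :=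
  Multiset.count_map_eq_count' _ _ (mul_right_injective a) b

theorem mem_scale {a b : Ug} {A : Multiset Ug} : b ∈ scale a A ↔ ∃ c ∈ A, a * c = b := Multiset.mem_map

/-- the Satake parameter at `v` of the isobaric sum of the representations in `C` -/
def param (𝒜 : Data P X Ug) (C : Multiset 𝒜.Rep) (v : P) : Multiset Ug := (C.map fun τ => 𝒜.sat τ v).sum

/-- There is an automorphic representation of `GL(n, 𝔸)` which is unramified on `P` with the Satake parameters `A(v)`. -/
def Lifts (𝒜 : Data P X Ug) (A : P → Multiset Ug) : Prop := ∃ C : Multiset 𝒜.Rep, ∀ v, A v = param 𝒜 C v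

variable (𝒜 : Data P X Ug)

theorem ext_sat {τ τ' : 𝒜.Rep} (h : ∀ v, 𝒜.sat τ v = 𝒜.sat τ' v) : τ = τ' := by
  have := 𝒜.isobaric {τ} {τ'} (fun v => by simpa using h v)
  exact Multiset.singleton_inj.1 this

theorem sat_ne (τ : 𝒜.Rep) (v : P) : 𝒜.sat τ v ≠ 0 := by
  intro h
  have h1 := 𝒜.card_sat τ v
  rw [h, Multiset.card_zero] at h1
  exact absurd h1.symm (𝒜.deg_pos τ).ne'

theorem sat_twist' (χ : X) (τ : 𝒜.Rep) (v : P) : 𝒜.sat (𝒜.twist χ τ) v = scale (𝒜.value χ v) (𝒜.sat τ v) :=
  𝒜.sat_twist χ τ v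

theorem twist_mul (χ η : X) (τ : 𝒜.Rep) : 𝒜.twist (χ * η) τ = 𝒜.twist χ (𝒜.twist η τ) := by
  refine ext_sat 𝒜 fun v => ?_
  rw [sat_twist', sat_twist', sat_twist', scale_scale, map_mul]
  rfl

theorem twist_one (τ : 𝒜.Rep) : 𝒜.twist 1 τ = τ := by
  refine ext_sat 𝒜 fun v => ?_
  rw [sat_twist', map_one]
  exact scale_one _

theorem twist_inv_cancel (χ : X) (τ : 𝒜.Rep) : 𝒜.twist χ (𝒜.twist χ⁻¹ τ) = τ := by
  rw [← twist_mul, mul_inv_cancel, twist_one]

theorem twist_injective (χ : X) : Function.Injective (𝒜.twist χ) := by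
  intro τ τ' h
  have := congrArg (𝒜.twist χ⁻¹) h
  rwa [← twist_mul, ← twist_mul, inv_mul_cancel, twist_one, twist_one] at this

theorem param_zero (v : P) : param 𝒜 0 v = 0 := rfl

theorem param_add (C D : Multiset 𝒜.Rep) (v : P) : param 𝒜 (C + D) v = param 𝒜 C v + param 𝒜 D v := by
  unfold param
  rw [Multiset.map_add, Multiset.sum_add]

theorem param_cons (τ : 𝒜.Rep) (C : Multiset 𝒜.Rep) (v : P) : param 𝒜 (τ ::ₘ C) v = 𝒜.sat τ v + param 𝒜 C v := by
  unfold param
  rw [Multiset.map_cons, Multiset.sum_cons]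

theorem param_sum {J : Type} (s : Finset J) (C : J → Multiset 𝒜.Rep) (v : P) :
    param 𝒜 (∑ j ∈ s, C j) v = ∑ j ∈ s, param 𝒜 (C j) v := by
  classical
  refine Finset.induction_on s ?_ fun j s hj ih => ?_
  · rw [Finset.sum_empty, Finset.sum_empty, param_zero]
  · rw [Finset.sum_insert hj, Finset.sum_insert hj, param_add, ih]

theorem param_twist (χ : X) (C : Multiset 𝒜.Rep) (v : P) :
    param 𝒜 (C.map (𝒜.twist χ)) v = scale (𝒜.value χ v) (param 𝒜 C v) := by
  induction C using Multiset.induction_on with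
  | empty => rw [Multiset.map_zero, param_zero, scale_zero]
  | cons τ C ih => rw [Multiset.map_cons, param_cons, param_cons, ih, scale_add, sat_twist']

theorem sat_le_param {τ : 𝒜.Rep} {C : Multiset 𝒜.Rep} (h : τ ∈ C) (v : P) : 𝒜.sat τ v ≤ param 𝒜 C v := by
  obtain ⟨D, rfl⟩ := Multiset.exists_cons_of_mem h
  rw [param_cons]
  exact Multiset.le_add_right _ _

theorem card_le_card_param (C : Multiset 𝒜.Rep) (v : P) : Multiset.card C ≤ Multiset.card (param 𝒜 C v) := by
  induction C using Multiset.induction_on with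
  | empty => simp
  | cons τ C ih =>
    rw [Multiset.card_cons, param_cons, Multiset.card_add, 𝒜.card_sat]
    have := 𝒜.deg_pos τ
    omega

/-! ### the determinant relation -/

variable {L ι : Type} [Fintype L] [DecidableEq L]

/-- the product of the characters `ψ (x m) m` -/
def Psi (ψ : ι → L → X) (x : Option L → ι) : X := ∏ m : L, ψ (x (some m)) m

/-- the twisted constituents -/
def tw (C : ι → Multiset 𝒜.Rep) (ψ : ι → L → X) (x : Option L → ι) : Multiset 𝒜.Rep :=
  (C (x none)).map (𝒜.twist (Psi ψ x))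

omit [DecidableEq L] in
theorem param_tw {A : L → P → Multiset Ug} {ψ : ι → L → X} {C : ι → Multiset 𝒜.Rep}
    (hC : ∀ e v, param 𝒜 (C e) v = ∑ i, scale (𝒜.value (ψ e i) v) (A i v)) (x : Option L → ι) (v : P) :
    param 𝒜 (tw 𝒜 C ψ x) v = ∑ i, scale (𝒜.value (Psi ψ x * ψ (x none) i) v) (A i v) := by
  unfold tw
  rw [param_twist, hC, scale_sum]
  refine Finset.sum_congr rfl fun i _ => ?_
  rw [scale_scale, map_mul]
  rfl

theorem Psi_swap (ψ : ι → L → X) (x : Option L → ι) (i : L) :
    Psi ψ (x ∘ Equiv.swap none (some i)) * ψ ((x ∘ Equiv.swap none (some i)) none) i = Psi ψ x * ψ (x none) i := by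
  unfold Psi
  rw [← Finset.mul_prod_erase univ (fun m => ψ ((x ∘ Equiv.swap none (some i)) (some m)) m) (Finset.mem_univ i),
    ← Finset.mul_prod_erase univ (fun m => ψ (x (some m)) m) (Finset.mem_univ i)]
  have h1 : ∏ m ∈ univ.erase i, ψ ((x ∘ Equiv.swap none (some i)) (some m)) m = ∏ m ∈ univ.erase i, ψ (x (some m)) m := by
    refine Finset.prod_congr rfl fun m hm => ?_
    have hne : m ≠ i := (Finset.mem_erase.1 hm).1
    rw [Function.comp_apply, Equiv.swap_apply_of_ne_of_ne (by simp) (by simpa using hne)]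
  rw [h1]
  simp only [Function.comp_apply, Equiv.swap_apply_left, Equiv.swap_apply_right]
  ac_rfl

/-- the even and the odd twisted sums have the same constituents -/
theorem relation {A : L → P → Multiset Ug} {ψ : ι → L → X} {C : ι → Multiset 𝒜.Rep}
    (hC : ∀ e v, param 𝒜 (C e) v = ∑ i, scale (𝒜.value (ψ e i) v) (A i v)) (x : Option L → ι) :
    ∑ π ∈ univ.filter (fun π : Equiv.Perm (Option L) => Equiv.Perm.sign π = 1), tw 𝒜 C ψ (x ∘ π) =
      ∑ π ∈ univ.filter (fun π : Equiv.Perm (Option L) => ¬ Equiv.Perm.sign π = 1), tw 𝒜 C ψ (x ∘ π) := by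
  refine 𝒜.isobaric _ _ fun v => ?_
  change param 𝒜 _ v = param 𝒜 _ v
  rw [param_sum, param_sum]
  simp only [param_tw 𝒜 hC]
  rw [Finset.sum_comm, Finset.sum_comm (s := univ.filter fun π : Equiv.Perm (Option L) => ¬ Equiv.Perm.sign π = 1)]
  refine Finset.sum_congr rfl fun i _ => ?_
  have hs : Equiv.Perm.sign (Equiv.swap (none : Option L) (some i)) = -1 := Equiv.Perm.sign_swap (by simp)
  refine Finset.sum_bij' (fun π _ => π * Equiv.swap none (some i)) (fun π _ => π * Equiv.swap none (some i))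
    ?_ ?_ ?_ ?_ ?_
  · intro π hπ
    rw [Finset.mem_filter] at hπ ⊢
    refine ⟨Finset.mem_univ _, ?_⟩
    rw [Equiv.Perm.sign_mul, hs, hπ.2]
    decide
  · intro π hπ
    rw [Finset.mem_filter] at hπ ⊢
    refine ⟨Finset.mem_univ _, ?_⟩
    rw [Equiv.Perm.sign_mul, hs]
    rcases Int.units_eq_one_or (Equiv.Perm.sign π) with h | h
    · exact absurd h hπ.2
    · rw [h]
      decide
  · intro π _
    rw [mul_assoc, Equiv.swap_mul_self, mul_one]
  · intro π _
    rw [mul_assoc, Equiv.swap_mul_self, mul_one]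
  · intro π _
    have h := Psi_swap ψ (x ∘ π) i
    have h2 : x ∘ ⇑(π * Equiv.swap none (some i)) = (x ∘ ⇑π) ∘ ⇑(Equiv.swap none (some i)) := by
      rw [Equiv.Perm.coe_mul]
      rfl
    rw [h2, h]

/-- every choice of `x` has a coincidence -/
theorem coincidence {A : L → P → Multiset Ug} {ψ : ι → L → X} {C : ι → Multiset 𝒜.Rep}
    (hC : ∀ e v, param 𝒜 (C e) v = ∑ i, scale (𝒜.value (ψ e i) v) (A i v)) (x : Option L → ι)
    (hne : C (x none) ≠ 0) :
    ∃ π : Equiv.Perm (Option L), π ≠ 1 ∧ ∃ τ ∈ C (x (π none)), ∃ τ' ∈ C (x none),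
      𝒜.twist (Psi ψ (x ∘ π)) τ = 𝒜.twist (Psi ψ x) τ' := by
  obtain ⟨τ', hτ'⟩ := Multiset.exists_mem_of_ne_zero hne
  have h1 : 𝒜.twist (Psi ψ x) τ' ∈
      ∑ π ∈ univ.filter (fun π : Equiv.Perm (Option L) => Equiv.Perm.sign π = 1), tw 𝒜 C ψ (x ∘ π) := by
    rw [Multiset.mem_sum]
    refine ⟨1, by simp, ?_⟩
    exact Multiset.mem_map_of_mem _ hτ'
  rw [relation 𝒜 hC, Multiset.mem_sum] at h1
  obtain ⟨π, hπ, h2⟩ := h1
  obtain ⟨τ, hτ, h3⟩ := Multiset.mem_map.1 h2
  refine ⟨π, ?_, τ, hτ, τ', hτ', h3⟩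
  rintro rfl
  rw [Finset.mem_filter] at hπ
  exact hπ.2 (by simp)

/-! ### counting -/

omit [DecidableEq L] [Fintype L] in
theorem count_update {K : Type} [Fintype K] [DecidableEq K] [Fintype ι] [DecidableEq ι] (Q : (K → ι) → Prop)
    [DecidablePred Q] (M : K) (c : ℕ)
    (h : ∀ x : K → ι, (univ.filter fun e : ι => Q (Function.update x M e)).card ≤ c) :
    Fintype.card ι * (univ.filter Q).card ≤ c * Fintype.card (K → ι) := by
  have h1 : ∑ x : K → ι, ∑ e : ι, (if Q (Function.update x M e) then 1 else 0 : ℕ) =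
      ∑ x : K → ι, ∑ _e : ι, (if Q x then 1 else 0 : ℕ) := by
    rw [← Fintype.sum_prod_type', ← Fintype.sum_prod_type']
    let φ : (K → ι) × ι → (K → ι) × ι := fun p => (Function.update p.1 M p.2, p.1 M)
    have hφ : Function.Involutive φ := by
      rintro ⟨x, e⟩
      simp [φ]
    exact Fintype.sum_equiv hφ.toPerm _ _ fun p => rfl
  have h2 : ∀ x : K → ι, ∑ e : ι, (if Q (Function.update x M e) then 1 else 0 : ℕ) ≤ c := by
    intro x
    rw [← Finset.card_filter]
    exact h x
  calc Fintype.card ι * (univ.filter Q).card = ∑ x : K → ι, ∑ _e : ι, (if Q x then 1 else 0 : ℕ) := by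
        rw [Finset.card_filter, Finset.mul_sum]
        refine Finset.sum_congr rfl fun x _ => ?_
        rw [Finset.sum_const, smul_eq_mul, Finset.card_univ]
    _ = ∑ x : K → ι, ∑ e : ι, (if Q (Function.update x M e) then 1 else 0 : ℕ) := h1.symm
    _ ≤ ∑ _x : K → ι, c := Finset.sum_le_sum fun x _ => h2 x
    _ = c * Fintype.card (K → ι) := by rw [Finset.sum_const, smul_eq_mul, Finset.card_univ, mul_comm]

omit [DecidableEq L] in
theorem Psi_erase [DecidableEq L] (ψ : ι → L → X) (x : Option L → ι) (m : L) :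
    Psi ψ x = ψ (x (some m)) m * ∏ l ∈ univ.erase m, ψ (x (some l)) l :=
  (Finset.mul_prod_erase univ (fun l => ψ (x (some l)) l) (Finset.mem_univ m)).symm

/-- few `e` are bad, first case -/
theorem few_one [Fintype ι] [DecidableEq ι] {ψ : ι → L → X} {C : ι → Multiset 𝒜.Rep} {n : ℕ}
    (hn : ∀ e, Multiset.card (C e) ≤ n)
    (hdis : ∀ e e' : ι, e ≠ e' → ∀ i τ, 𝒜.twist (ψ e i) τ ∈ C e → 𝒜.twist (ψ e' i) τ ∉ C e')
    (π : Equiv.Perm (Option L)) (j : L) (hπ : π none = some j) (x : Option L → ι)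
    [DecidablePred fun e : ι => ∃ τ ∈ C (Function.update x (some j) e (π none)),
      ∃ τ' ∈ C (Function.update x (some j) e none),
        𝒜.twist (Psi ψ (Function.update x (some j) e ∘ π)) τ = 𝒜.twist (Psi ψ (Function.update x (some j) e)) τ'] :
    (univ.filter fun e : ι => ∃ τ ∈ C (Function.update x (some j) e (π none)),
      ∃ τ' ∈ C (Function.update x (some j) e none),
        𝒜.twist (Psi ψ (Function.update x (some j) e ∘ π)) τ =
          𝒜.twist (Psi ψ (Function.update x (some j) e)) τ').card ≤ n := by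
  classical
  have hnone : ∀ e, Function.update x (some j) e none = x none := fun e =>
    Function.update_of_ne (by simp) _ _
  have hpn : ∀ e, Function.update x (some j) e (π none) = e := fun e => by
    rw [hπ, Function.update_self]
  set a : X := Psi ψ (x ∘ π) with ha
  have hPa : ∀ e, Psi ψ (Function.update x (some j) e ∘ π) = a := by
    intro e
    rw [ha]
    unfold Psi
    refine Finset.prod_congr rfl fun m _ => ?_
    have hne : π (some m) ≠ some j := by
      rw [← hπ]
      exact fun h => by simpa using π.injective h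
    simp only [Function.comp_apply]
    rw [Function.update_of_ne hne]
  set b : X := ∏ l ∈ univ.erase j, ψ (x (some l)) l with hb
  have hPb : ∀ e, Psi ψ (Function.update x (some j) e) = ψ e j * b := by
    intro e
    rw [Psi_erase ψ _ j, Function.update_self, hb]
    congr 1
    refine Finset.prod_congr rfl fun l hl => ?_
    have hne : l ≠ j := (Finset.mem_erase.1 hl).1
    rw [Function.update_of_ne (by simpa using hne)]
  have hkey : ∀ e, (∃ τ ∈ C (Function.update x (some j) e (π none)),
      ∃ τ' ∈ C (Function.update x (some j) e none),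
        𝒜.twist (Psi ψ (Function.update x (some j) e ∘ π)) τ =
          𝒜.twist (Psi ψ (Function.update x (some j) e)) τ') →
      ∃ τ' ∈ (C (x none)).toFinset, 𝒜.twist (ψ e j) (𝒜.twist (a⁻¹ * b) τ') ∈ C e := by
    rintro e ⟨τ, hτ, τ', hτ', h⟩
    rw [hpn] at hτ
    rw [hnone] at hτ'
    rw [hPa, hPb] at h
    refine ⟨τ', Multiset.mem_toFinset.2 hτ', ?_⟩
    have h2 : 𝒜.twist (ψ e j) (𝒜.twist (a⁻¹ * b) τ') = τ := by
      have h3 := congrArg (𝒜.twist a⁻¹) h
      rw [← twist_mul, inv_mul_cancel, twist_one, ← twist_mul] at h3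
      rw [h3, ← twist_mul]
      congr 1
      rw [← mul_assoc, ← mul_assoc, mul_comm (ψ e j) a⁻¹]
    rw [h2]
    exact hτ
  have hsub : (univ.filter fun e : ι => ∃ τ ∈ C (Function.update x (some j) e (π none)),
      ∃ τ' ∈ C (Function.update x (some j) e none),
        𝒜.twist (Psi ψ (Function.update x (some j) e ∘ π)) τ =
          𝒜.twist (Psi ψ (Function.update x (some j) e)) τ') ⊆
      (C (x none)).toFinset.biUnion fun τ' =>
        univ.filter fun e : ι => 𝒜.twist (ψ e j) (𝒜.twist (a⁻¹ * b) τ') ∈ C e := by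
    intro e he
    obtain ⟨τ', h1, h2⟩ := hkey e (Finset.mem_filter.1 he).2
    exact Finset.mem_biUnion.2 ⟨τ', h1, Finset.mem_filter.2 ⟨Finset.mem_univ _, h2⟩⟩
  refine (Finset.card_le_card hsub).trans ((Finset.card_biUnion_le_card_mul _ _ 1 fun τ' _ => ?_).trans ?_)
  · rw [Finset.card_le_one]
    intro e he e' he'
    by_contra hee
    exact hdis e e' hee j _ (Finset.mem_filter.1 he).2 (Finset.mem_filter.1 he').2
  · rw [mul_one]
    exact (Multiset.toFinset_card_le _).trans (hn _)

/-- few `e` are bad, second case -/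
theorem few_two [Fintype ι] [DecidableEq ι] {ψ : ι → L → X} {C : ι → Multiset 𝒜.Rep} {n : ℕ} (v₀ : P)
    (hn : ∀ e, Multiset.card (param 𝒜 (C e) v₀) ≤ n)
    (hinj : ∀ i j, i ≠ j → ∀ e e', 𝒜.value (ψ e i) v₀ / 𝒜.value (ψ e j) v₀ =
      𝒜.value (ψ e' i) v₀ / 𝒜.value (ψ e' j) v₀ → e = e')
    (π : Equiv.Perm (Option L)) (hπ : π none = none) (m₀ : L) (hm₀ : π (some m₀) ≠ some m₀) (x : Option L → ι)
    [DecidablePred fun e : ι => ∃ τ ∈ C (Function.update x (some m₀) e (π none)),
      ∃ τ' ∈ C (Function.update x (some m₀) e none),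
        𝒜.twist (Psi ψ (Function.update x (some m₀) e ∘ π)) τ = 𝒜.twist (Psi ψ (Function.update x (some m₀) e)) τ'] :
    (univ.filter fun e : ι => ∃ τ ∈ C (Function.update x (some m₀) e (π none)),
      ∃ τ' ∈ C (Function.update x (some m₀) e none),
        𝒜.twist (Psi ψ (Function.update x (some m₀) e ∘ π)) τ =
          𝒜.twist (Psi ψ (Function.update x (some m₀) e)) τ').card ≤ n ^ 2 := by
  classical
  have hnone : ∀ e, Function.update x (some m₀) e none = x none := fun e =>
    Function.update_of_ne (by simp) _ _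
  -- the slot in which `some m₀` appears after the permutation
  obtain ⟨m₂, hm₂⟩ : ∃ m₂ : L, π (some m₂) = some m₀ := by
    obtain ⟨s, hs⟩ := π.surjective (some m₀)
    cases s with
    | none => rw [hπ] at hs; exact absurd hs (by simp)
    | some m => exact ⟨m, hs⟩
  have hne20 : m₂ ≠ m₀ := by
    rintro rfl
    exact hm₀ hm₂
  set a : X := ∏ l ∈ univ.erase m₂, ψ (x (π (some l))) l with ha
  have hPa : ∀ e, Psi ψ (Function.update x (some m₀) e ∘ π) = ψ e m₂ * a := by
    intro e
    rw [Psi_erase ψ _ m₂, Function.comp_apply, hm₂, Function.update_self, ha]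
    congr 1
    refine Finset.prod_congr rfl fun l hl => ?_
    have hne : l ≠ m₂ := (Finset.mem_erase.1 hl).1
    have hne' : π (some l) ≠ some m₀ := by
      rw [← hm₂]
      exact fun h => hne (by simpa using π.injective h)
    rw [Function.comp_apply, Function.update_of_ne hne']
  set b : X := ∏ l ∈ univ.erase m₀, ψ (x (some l)) l with hb
  have hPb : ∀ e, Psi ψ (Function.update x (some m₀) e) = ψ e m₀ * b := by
    intro e
    rw [Psi_erase ψ _ m₀, Function.update_self, hb]
    congr 1
    refine Finset.prod_congr rfl fun l hl => ?_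
    have hne : l ≠ m₀ := (Finset.mem_erase.1 hl).1
    rw [Function.update_of_ne (by simpa using hne)]
  set U : Finset Ug := (param 𝒜 (C (x none)) v₀).toFinset with hU
  have hUn : U.card ≤ n := (Multiset.toFinset_card_le _).trans (hn _)
  have hkey : ∀ e, (∃ τ ∈ C (Function.update x (some m₀) e (π none)),
      ∃ τ' ∈ C (Function.update x (some m₀) e none),
        𝒜.twist (Psi ψ (Function.update x (some m₀) e ∘ π)) τ =
          𝒜.twist (Psi ψ (Function.update x (some m₀) e)) τ') →
      ∃ p ∈ U ×ˢ U, 𝒜.value (ψ e m₂) v₀ / 𝒜.value (ψ e m₀) v₀ =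
        𝒜.value b v₀ * p.2 / (𝒜.value a v₀ * p.1) := by
    rintro e ⟨τ, hτ, τ', hτ', h⟩
    rw [hπ, hnone] at hτ
    rw [hnone] at hτ'
    rw [hPa, hPb] at h
    obtain ⟨β, hβ⟩ := Multiset.exists_mem_of_ne_zero (sat_ne 𝒜 τ v₀)
    have h1 : 𝒜.value (ψ e m₂ * a) v₀ * β ∈ 𝒜.sat (𝒜.twist (ψ e m₂ * a) τ) v₀ := by
      rw [𝒜.sat_twist]
      exact Multiset.mem_map_of_mem _ hβ
    rw [h, 𝒜.sat_twist, Multiset.mem_map] at h1
    obtain ⟨β', hβ', h2⟩ := h1
    refine ⟨(β, β'), Finset.mem_product.2 ⟨Multiset.mem_toFinset.2 (Multiset.mem_of_le (sat_le_param 𝒜 hτ v₀) hβ),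
      Multiset.mem_toFinset.2 (Multiset.mem_of_le (sat_le_param 𝒜 hτ' v₀) hβ')⟩, ?_⟩
    rw [map_mul, map_mul, Pi.mul_apply, Pi.mul_apply] at h2
    rw [div_eq_div_iff_mul_eq_mul]
    simp only
    rw [mul_comm _ (𝒜.value (ψ e m₀) v₀), ← mul_assoc, ← h2, mul_assoc]
  have hsub : (univ.filter fun e : ι => ∃ τ ∈ C (Function.update x (some m₀) e (π none)),
      ∃ τ' ∈ C (Function.update x (some m₀) e none),
        𝒜.twist (Psi ψ (Function.update x (some m₀) e ∘ π)) τ =
          𝒜.twist (Psi ψ (Function.update x (some m₀) e)) τ') ⊆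
      (U ×ˢ U).biUnion fun p =>
        univ.filter fun e : ι => 𝒜.value (ψ e m₂) v₀ / 𝒜.value (ψ e m₀) v₀ =
          𝒜.value b v₀ * p.2 / (𝒜.value a v₀ * p.1) := by
    intro e he
    obtain ⟨p, h1, h2⟩ := hkey e (Finset.mem_filter.1 he).2
    exact Finset.mem_biUnion.2 ⟨p, h1, Finset.mem_filter.2 ⟨Finset.mem_univ _, h2⟩⟩
  refine (Finset.card_le_card hsub).trans ((Finset.card_biUnion_le_card_mul _ _ 1 fun p _ => ?_).trans ?_)
  · rw [Finset.card_le_one]
    intro e he e' he'
    exact hinj m₂ m₀ hne20 e e' ((Finset.mem_filter.1 he).2.trans (Finset.mem_filter.1 he').2.symm)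
  · rw [mul_one, Finset.card_product, sq]
    exact Nat.mul_le_mul hUn hUn

/-- **The core.** If the twisted sets of constituents are pairwise disjoint, there are few twists. -/
theorem core [Fintype ι] {A : L → P → Multiset Ug} {ψ : ι → L → X} {C : ι → Multiset 𝒜.Rep}
    (hC : ∀ e v, param 𝒜 (C e) v = ∑ i, scale (𝒜.value (ψ e i) v) (A i v)) (v₀ : P) {n : ℕ} (hn0 : 0 < n)
    (hn : ∑ i, Multiset.card (A i v₀) ≤ n) (hne : ∀ e, C e ≠ 0)
    (hinj : ∀ i j, i ≠ j → ∀ e e', 𝒜.value (ψ e i) v₀ / 𝒜.value (ψ e j) v₀ =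
      𝒜.value (ψ e' i) v₀ / 𝒜.value (ψ e' j) v₀ → e = e')
    (hdis : ∀ e e' : ι, e ≠ e' → ∀ i τ, 𝒜.twist (ψ e i) τ ∈ C e → 𝒜.twist (ψ e' i) τ ∉ C e') :
    Fintype.card ι < (Fintype.card L + 1).factorial * n ^ 2 := by
  classical
  have hcard : ∀ e, Multiset.card (param 𝒜 (C e) v₀) ≤ n := by
    intro e
    rw [hC, Multiset.card_sum]
    simp only [card_scale]
    exact hn
  have hcard' : ∀ e, Multiset.card (C e) ≤ n := fun e => (card_le_card_param 𝒜 _ v₀).trans (hcard e)
  rcases isEmpty_or_nonempty ι with hι | hι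
  · rw [Fintype.card_eq_zero]
    positivity
  let Q : Equiv.Perm (Option L) → (Option L → ι) → Prop := fun π x =>
    ∃ τ ∈ C (x (π none)), ∃ τ' ∈ C (x none), 𝒜.twist (Psi ψ (x ∘ π)) τ = 𝒜.twist (Psi ψ x) τ'
  have hQ : ∀ π : Equiv.Perm (Option L), π ≠ 1 →
      Fintype.card ι * (univ.filter (Q π)).card ≤ n ^ 2 * Fintype.card (Option L → ι) := by
    intro π hπ
    rcases h0 : π none with _ | j
    · -- some other index is moved
      obtain ⟨m₀, hm₀⟩ : ∃ m₀ : L, π (some m₀) ≠ some m₀ := by
        by_contra hcon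
        push Not at hcon
        refine hπ (Equiv.ext fun s => ?_)
        cases s with
        | none => exact h0
        | some m => exact hcon m
      exact count_update (Q π) (some m₀) (n ^ 2) fun x => few_two 𝒜 v₀ hcard hinj π h0 m₀ hm₀ x
    · refine (count_update (Q π) (some j) n fun x => few_one 𝒜 hcard' hdis π j h0 x).trans ?_
      exact Nat.mul_le_mul_right _ (Nat.le_self_pow (by norm_num) n)
  have hall : (univ : Finset (Option L → ι)) ⊆
      (univ.erase (1 : Equiv.Perm (Option L))).biUnion fun π => univ.filter (Q π) := by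
    intro x _
    obtain ⟨π, h1, h2⟩ := coincidence 𝒜 hC x (hne _)
    exact Finset.mem_biUnion.2 ⟨π, Finset.mem_erase.2 ⟨h1, Finset.mem_univ _⟩,
      Finset.mem_filter.2 ⟨Finset.mem_univ _, h2⟩⟩
  have h1 : Fintype.card ι * Fintype.card (Option L → ι) ≤
      ((Fintype.card L + 1).factorial - 1) * n ^ 2 * Fintype.card (Option L → ι) := by
    calc Fintype.card ι * Fintype.card (Option L → ι)
        ≤ Fintype.card ι * ∑ π ∈ univ.erase (1 : Equiv.Perm (Option L)), (univ.filter (Q π)).card :=
          Nat.mul_le_mul_left _ ((Finset.card_le_card hall).trans Finset.card_biUnion_le)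
      _ = ∑ π ∈ univ.erase (1 : Equiv.Perm (Option L)), Fintype.card ι * (univ.filter (Q π)).card := by
          rw [Finset.mul_sum]
      _ ≤ ∑ _π ∈ univ.erase (1 : Equiv.Perm (Option L)), n ^ 2 * Fintype.card (Option L → ι) :=
          Finset.sum_le_sum fun π hπ => hQ π (Finset.mem_erase.1 hπ).1
      _ = _ := by
          rw [Finset.sum_const, Finset.card_erase_of_mem (Finset.mem_univ _), Finset.card_univ, Fintype.card_perm,
            Fintype.card_option, smul_eq_mul, mul_assoc]
  have hpos : 0 < Fintype.card (Option L → ι) := Fintype.card_pos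
  have h2 : Fintype.card ι ≤ ((Fintype.card L + 1).factorial - 1) * n ^ 2 := Nat.le_of_mul_le_mul_right h1 hpos
  refine h2.trans_lt ?_
  have h3 : 0 < (Fintype.card L + 1).factorial := Nat.factorial_pos _
  exact Nat.mul_lt_mul_of_pos_right (by omega) (by positivity)

end Run7.h55.FG
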