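import Mathlib
import Pool.Agent.Run7.h55.FG.Core

/-!
# Liftings at few twists: common constituents, and the main theorems
-/

set_option autoImplicit false
set_option linter.unusedSectionVars false

open Finset

namespace Run7.h55.FG

variable {P X Ug : Type} [CommGroup X] [CommGroup Ug] [DecidableEq Ug] (𝒜 : Data P X Ug) {L : Type} [Fintype L] [DecidableEq L]

/-- the parameters of the member of the family with the characters `ψ i` -/
def fam (A : L → P → Multiset Ug) (ψ : L → X) (v : P) : Multiset Ug := ∑ i, scale (𝒜.value (ψ i) v) (A i v)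

theorem card_fam (A : L → P → Multiset Ug) (ψ : L → X) (v : P) :
    Multiset.card (fam 𝒜 A ψ v) = ∑ i, Multiset.card (A i v) := by
  unfold fam
  rw [Multiset.card_sum]
  simp only [card_scale]

theorem nonempty_L {A : L → P → Multiset Ug} {ψ : L → X} {C : Multiset 𝒜.Rep} {v₀ : P}
    (hC : param 𝒜 C v₀ = fam 𝒜 A ψ v₀) (hne : C ≠ 0) : Nonempty L := by
  have h1 : 0 < Multiset.card C := Multiset.card_pos.2 hne
  have h2 := card_le_card_param 𝒜 C v₀
  rw [hC, card_fam] at h2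
  by_contra hL
  rw [not_nonempty_iff] at hL
  rw [Finset.univ_eq_empty, Finset.sum_empty] at h2
  omega

/-- many members have a common constituent -/
theorem common_fin {ι : Type} [Fintype ι] [DecidableEq ι] [Nonempty ι] {A : L → P → Multiset Ug} {ψ : ι → L → X}
    {C : ι → Multiset 𝒜.Rep} (hC : ∀ e v, param 𝒜 (C e) v = fam 𝒜 A (ψ e) v) (v₀ : P) {n : ℕ} (hn0 : 0 < n)
    (hn : ∑ i, Multiset.card (A i v₀) ≤ n) (hne : ∀ e, C e ≠ 0)
    (hinj : ∀ i j, i ≠ j → ∀ e e', 𝒜.value (ψ e i) v₀ / 𝒜.value (ψ e j) v₀ =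
      𝒜.value (ψ e' i) v₀ / 𝒜.value (ψ e' j) v₀ → e = e') (M : ℕ) (hM : 0 < M)
    (hcard : (Fintype.card L + 1).factorial * n ^ 2 * (Fintype.card L * n) * M ≤ Fintype.card ι) :
    ∃ (i : L) (τ : 𝒜.Rep), M ≤ Nat.card {e : ι // 𝒜.twist (ψ e i) τ ∈ C e} := by
  classical
  by_contra hcon
  push Not at hcon
  have hcon' : ∀ (i : L) (τ : 𝒜.Rep), (univ.filter fun e : ι => 𝒜.twist (ψ e i) τ ∈ C e).card ≤ M - 1 := by
    intro i τ
    have h := hcon i τ
    rw [Nat.card_eq_fintype_card, Fintype.card_subtype] at h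
    omega
  obtain ⟨e₀⟩ := ‹Nonempty ι›
  obtain ⟨i₀⟩ := nonempty_L 𝒜 (hC e₀ v₀) (hne e₀)
  have hcardC : ∀ e, Multiset.card (C e) ≤ n := fun e =>
    (card_le_card_param 𝒜 (C e) v₀).trans (by rw [hC, card_fam]; exact hn)
  -- a maximal subset with disjoint twisted constituents
  let good : Finset ι → Prop := fun F => ∀ e ∈ F, ∀ e' ∈ F, e ≠ e' → ∀ i τ,
    𝒜.twist (ψ e i) τ ∈ C e → 𝒜.twist (ψ e' i) τ ∉ C e'
  obtain ⟨F, hF, hFmax⟩ := Finset.exists_max_image (univ.filter good) Finset.card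
    ⟨∅, Finset.mem_filter.2 ⟨Finset.mem_univ _, fun e he => absurd he (Finset.notMem_empty e)⟩⟩
  have hFg : good F := (Finset.mem_filter.1 hF).2
  have hFcard : F.card < (Fintype.card L + 1).factorial * n ^ 2 := by
    have h := core 𝒜 (ι := F) (A := A) (ψ := fun e => ψ e.1) (C := fun e => C e.1) (fun e v => hC e.1 v) v₀ hn0 hn
      (fun e => hne e.1) (fun i j hij e e' h => Subtype.ext (hinj i j hij e.1 e'.1 h))
      (fun e e' hee i τ => hFg e.1 e.2 e'.1 e'.2 (fun h => hee (Subtype.ext h)) i τ)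
    rwa [Fintype.card_coe] at h
  have hconf : ∀ e : ι, ∃ y ∈ F, ∃ i τ, 𝒜.twist (ψ e i) τ ∈ C e ∧ 𝒜.twist (ψ y i) τ ∈ C y := by
    intro e
    by_cases he : e ∈ F
    · obtain ⟨σ, hσ⟩ := Multiset.exists_mem_of_ne_zero (hne e)
      refine ⟨e, he, i₀, 𝒜.twist (ψ e i₀)⁻¹ σ, ?_, ?_⟩ <;> rw [twist_inv_cancel] <;> exact hσ
    · by_contra hno
      push Not at hno
      have hins : good (insert e F) := by
        intro a ha b hb hab i τ h1 h2
        rw [Finset.mem_insert] at ha hb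
        rcases ha with rfl | ha
        · rcases hb with rfl | hb
          · exact hab rfl
          · exact hno b hb i τ h1 h2
        · rcases hb with rfl | hb
          · exact hno a ha i τ h2 h1
          · exact hFg a ha b hb hab i τ h1 h2
      have := hFmax (insert e F) (Finset.mem_filter.2 ⟨Finset.mem_univ _, hins⟩)
      rw [Finset.card_insert_of_notMem he] at this
      omega
  have hcov : (univ : Finset ι) ⊆ F.biUnion fun y => (univ : Finset L).biUnion fun i =>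
      (C y).toFinset.biUnion fun σ => univ.filter fun e : ι => 𝒜.twist (ψ e i) (𝒜.twist (ψ y i)⁻¹ σ) ∈ C e := by
    intro e _
    obtain ⟨y, hy, i, τ, h1, h2⟩ := hconf e
    refine Finset.mem_biUnion.2 ⟨y, hy, Finset.mem_biUnion.2 ⟨i, Finset.mem_univ _, Finset.mem_biUnion.2
      ⟨𝒜.twist (ψ y i) τ, Multiset.mem_toFinset.2 h2, Finset.mem_filter.2 ⟨Finset.mem_univ _, ?_⟩⟩⟩⟩
    rw [← twist_mul 𝒜 (ψ y i)⁻¹, inv_mul_cancel, twist_one]
    exact h1
  have h1 : Fintype.card ι ≤ F.card * (Fintype.card L * (n * (M - 1))) := by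
    refine (Finset.card_le_card hcov).trans (Finset.card_biUnion_le_card_mul _ _ _ fun y _ => ?_)
    refine (Finset.card_biUnion_le_card_mul _ _ (n * (M - 1)) fun i _ => ?_)
    refine (Finset.card_biUnion_le_card_mul _ _ (M - 1) fun σ _ => hcon' i _).trans ?_
    exact Nat.mul_le_mul_right _ ((Multiset.toFinset_card_le _).trans (hcardC y))
  have hL : 0 < Fintype.card L := Fintype.card_pos_iff.2 ⟨i₀⟩
  have h2 : F.card * (Fintype.card L * (n * (M - 1))) <
      (Fintype.card L + 1).factorial * n ^ 2 * (Fintype.card L * n) * M := by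
    have hK : 0 < (Fintype.card L + 1).factorial * n ^ 2 := by positivity
    calc F.card * (Fintype.card L * (n * (M - 1)))
        ≤ (Fintype.card L + 1).factorial * n ^ 2 * (Fintype.card L * (n * (M - 1))) := Nat.mul_le_mul_right _ hFcard.le
      _ = (Fintype.card L + 1).factorial * n ^ 2 * (Fintype.card L * n) * (M - 1) := by ring
      _ < (Fintype.card L + 1).factorial * n ^ 2 * (Fintype.card L * n) * M :=
          Nat.mul_lt_mul_of_pos_left (by omega) (by positivity)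
  omega

/-- infinitely many members have a common constituent -/
theorem common_inf {ι : Type} [Infinite ι] {A : L → P → Multiset Ug} {ψ : ι → L → X}
    {C : ι → Multiset 𝒜.Rep} (hC : ∀ e v, param 𝒜 (C e) v = fam 𝒜 A (ψ e) v) (v₀ : P) (hne : ∀ e, C e ≠ 0)
    (hfin : ∀ i j, i ≠ j → ∀ c, {e : ι | 𝒜.value (ψ e i) v₀ / 𝒜.value (ψ e j) v₀ = c}.Finite) :
    ∃ (i : L) (τ : 𝒜.Rep), {e : ι | 𝒜.twist (ψ e i) τ ∈ C e}.Infinite := by
  classical
  by_contra hcon
  push Not at hcon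
  have hcon' : ∀ (i : L) (τ : 𝒜.Rep), {e : ι | 𝒜.twist (ψ e i) τ ∈ C e}.Finite := fun i τ => hcon i τ
  obtain ⟨f, -, hf⟩ := exists_seq_of_forall_finset_exists (fun _ : ι => True)
    (fun e e' => (∀ i j, i ≠ j → 𝒜.value (ψ e i) v₀ / 𝒜.value (ψ e j) v₀ ≠ 𝒜.value (ψ e' i) v₀ / 𝒜.value (ψ e' j) v₀) ∧
      ∀ i τ, 𝒜.twist (ψ e i) τ ∈ C e → 𝒜.twist (ψ e' i) τ ∉ C e') (by
    intro s _
    have hbad : (⋃ e ∈ s, ((⋃ i : L, ⋃ j : L, {e' : ι | i ≠ j ∧ 𝒜.value (ψ e' i) v₀ / 𝒜.value (ψ e' j) v₀ =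
        𝒜.value (ψ e i) v₀ / 𝒜.value (ψ e j) v₀}) ∪
        ⋃ i : L, ⋃ σ ∈ (C e).toFinset, {e' : ι | 𝒜.twist (ψ e' i) (𝒜.twist (ψ e i)⁻¹ σ) ∈ C e'})).Finite := by
      refine Set.Finite.biUnion s.finite_toSet fun e _ => ?_
      refine Set.Finite.union (Set.finite_iUnion fun i => Set.finite_iUnion fun j => ?_)
        (Set.finite_iUnion fun i => Set.Finite.biUnion (C e).toFinset.finite_toSet fun σ _ => hcon' i _)
      by_cases hij : i = j
      · refine Set.finite_empty.subset ?_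
        rintro e' ⟨h, -⟩
        exact h hij
      · refine (hfin i j hij (𝒜.value (ψ e i) v₀ / 𝒜.value (ψ e j) v₀)).subset ?_
        rintro e' ⟨-, h⟩
        exact h
    obtain ⟨e', he'⟩ := hbad.infinite_compl.nonempty
    refine ⟨e', trivial, fun e he => ⟨fun i j hij h => he' ?_, fun i τ h1 h2 => he' ?_⟩⟩
    · exact Set.mem_biUnion he (Or.inl (Set.mem_iUnion.2 ⟨i, Set.mem_iUnion.2 ⟨j, hij, h.symm⟩⟩))
    · refine Set.mem_biUnion he (Or.inr (Set.mem_iUnion.2 ⟨i, ?_⟩))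
      refine Set.mem_biUnion (Multiset.mem_toFinset.2 h1) ?_
      change 𝒜.twist (ψ e' i) (𝒜.twist (ψ e i)⁻¹ (𝒜.twist (ψ e i) τ)) ∈ C e'
      rw [← twist_mul 𝒜 (ψ e i)⁻¹, inv_mul_cancel, twist_one]
      exact h2)
  set n := ∑ i, Multiset.card (A i v₀) + 1 with hn
  set K := (Fintype.card L + 1).factorial * n ^ 2 with hK
  have h := core 𝒜 (ι := Fin K) (A := A) (ψ := fun a => ψ (f a)) (C := fun a => C (f a)) (fun e v => hC _ v) v₀
    (Nat.succ_pos _) (n := n) (by omega) (fun e => hne _) (fun i j hij a b hab => by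
      by_contra hne
      rcases Nat.lt_or_gt_of_ne (fun h => hne (Fin.ext h)) with h | h
      · exact (hf a b h).1 i j hij hab
      · exact (hf b a h).1 i j hij hab.symm)
    (fun a b hab i τ h1 h2 => by
      rcases Nat.lt_or_gt_of_ne (fun h => hab (Fin.ext h)) with h | h
      · exact (hf a b h).2 i τ h1 h2
      · exact (hf b a h).2 i τ h2 h1)
  rw [Fintype.card_fin] at h
  exact lt_irrefl _ h

/-! ### removing a constituent -/

theorem sat_le_of_good {ι : Type} {A : L → P → Multiset Ug} {ψ : ι → L → X}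
    {C : ι → Multiset 𝒜.Rep} (hC : ∀ e v, param 𝒜 (C e) v = fam 𝒜 A (ψ e) v) (i : L) (τ : 𝒜.Rep) (v : P)
    (h : ∀ β : Ug, ∃ e, 𝒜.twist (ψ e i) τ ∈ C e ∧ ∀ j, j ≠ i → ∀ α ∈ A j v,
      𝒜.value (ψ e i) v / 𝒜.value (ψ e j) v ≠ α / β) : 𝒜.sat τ v ≤ A i v := by
  classical
  rw [Multiset.le_iff_count]
  intro β
  obtain ⟨e, he, hgood⟩ := h β
  have h1 : scale (𝒜.value (ψ e i) v) (𝒜.sat τ v) ≤ fam 𝒜 A (ψ e) v := by
    rw [← sat_twist', ← hC]
    exact sat_le_param 𝒜 he v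
  have h2 := Multiset.count_le_of_le (𝒜.value (ψ e i) v * β) h1
  rw [count_scale] at h2
  refine h2.trans ?_
  unfold fam
  rw [Multiset.count_sum', ← Finset.add_sum_erase univ _ (Finset.mem_univ i), count_scale]
  have h3 : ∑ j ∈ univ.erase i, Multiset.count (𝒜.value (ψ e i) v * β) (scale (𝒜.value (ψ e j) v) (A j v)) = 0 := by
    refine Finset.sum_eq_zero fun j hj => ?_
    rw [Multiset.count_eq_zero]
    intro hmem
    obtain ⟨α, hα, hαe⟩ := mem_scale.1 hmem
    refine hgood j (Finset.mem_erase.1 hj).1 α hα ?_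
    rw [div_eq_div_iff_mul_eq_mul, ← hαe, mul_comm]
  rw [h3, add_zero]

open Classical in
/-- the families with `τ` removed from `A i` -/
noncomputable def rem (A : L → P → Multiset Ug) (i : L) (τ : 𝒜.Rep) (j : L) (v : P) : Multiset Ug :=
  if j = i then A j v - 𝒜.sat τ v else A j v

theorem rem_self {A : L → P → Multiset Ug} {i : L} {τ : 𝒜.Rep} {v : P} (h : 𝒜.sat τ v ≤ A i v) :
    rem 𝒜 A i τ i v + 𝒜.sat τ v = A i v := by
  classical
  unfold rem
  rw [if_pos rfl]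
  exact tsub_add_cancel_of_le h

theorem rem_ne {A : L → P → Multiset Ug} {i j : L} {τ : 𝒜.Rep} {v : P} (h : j ≠ i) : rem 𝒜 A i τ j v = A j v :=
  if_neg h

theorem fam_rem {A : L → P → Multiset Ug} {i : L} {τ : 𝒜.Rep} {v : P} (h : 𝒜.sat τ v ≤ A i v) (ψ : L → X) :
    fam 𝒜 (rem 𝒜 A i τ) ψ v + scale (𝒜.value (ψ i) v) (𝒜.sat τ v) = fam 𝒜 A ψ v := by
  unfold fam
  rw [← Finset.add_sum_erase univ _ (Finset.mem_univ i), ← Finset.add_sum_erase univ
    (fun j => scale (𝒜.value (ψ j) v) (A j v)) (Finset.mem_univ i)]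
  have h1 : ∑ j ∈ univ.erase i, scale (𝒜.value (ψ j) v) (rem 𝒜 A i τ j v) =
      ∑ j ∈ univ.erase i, scale (𝒜.value (ψ j) v) (A j v) :=
    Finset.sum_congr rfl fun j hj => by rw [rem_ne 𝒜 (Finset.mem_erase.1 hj).1]
  rw [h1, add_right_comm, ← scale_add, rem_self 𝒜 h]

theorem card_rem {A : L → P → Multiset Ug} {i : L} {τ : 𝒜.Rep} {v : P} (h : 𝒜.sat τ v ≤ A i v) :
    ∑ j, Multiset.card (rem 𝒜 A i τ j v) + 𝒜.deg τ = ∑ j, Multiset.card (A j v) := by
  have h1 := fam_rem 𝒜 h (fun _ => 1)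
  have h2 := congrArg Multiset.card h1
  rw [Multiset.card_add, card_fam, card_fam, card_scale, 𝒜.card_sat] at h2
  exact h2

theorem lifts_rem {A : L → P → Multiset Ug} {i : L} {τ : 𝒜.Rep} (h : ∀ v, 𝒜.sat τ v ≤ A i v) {ψ : L → X}
    {C : Multiset 𝒜.Rep} (hC : ∀ v, param 𝒜 C v = fam 𝒜 A ψ v) (hτ : 𝒜.twist (ψ i) τ ∈ C) :
    Lifts 𝒜 (fam 𝒜 (rem 𝒜 A i τ) ψ) := by
  obtain ⟨D, rfl⟩ := Multiset.exists_cons_of_mem hτ
  refine ⟨D, fun v => ?_⟩
  have h1 := fam_rem 𝒜 (h v) ψ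
  rw [← hC, param_cons, sat_twist', add_comm] at h1
  exact add_left_cancel h1

theorem lifts_of_rem {A : L → P → Multiset Ug} {i : L} {τ : 𝒜.Rep} (h : ∀ v, 𝒜.sat τ v ≤ A i v)
    (hl : ∀ j, Lifts 𝒜 (rem 𝒜 A i τ j)) (j : L) : Lifts 𝒜 (A j) := by
  obtain ⟨C, hC⟩ := hl j
  by_cases hj : j = i
  · subst hj
    refine ⟨τ ::ₘ C, fun v => ?_⟩
    rw [param_cons, ← hC, add_comm, rem_self 𝒜 (h v)]
  · exact ⟨C, fun v => by rw [← hC, rem_ne 𝒜 hj]⟩

theorem lifts_zero {A : P → Multiset Ug} (h : ∀ v, A v = 0) : Lifts 𝒜 A := ⟨0, fun v => by rw [h, param_zero]⟩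

theorem all_zero {A : L → P → Multiset Ug} {ψ : L → X} (h : ∀ v, fam 𝒜 A ψ v = 0) (i : L) (v : P) : A i v = 0 := by
  have h1 := congrArg Multiset.card (h v)
  rw [card_fam, Multiset.card_zero] at h1
  exact Multiset.card_eq_zero.1 ((Finset.sum_eq_zero_iff.1 h1) i (Finset.mem_univ i))

/-! ### the main theorems -/

/-- the number of twists which is sufficient -/
def bound (l n : ℕ) : ℕ := ((l + 1).factorial * n ^ 2 * (l * n) + 1) ^ n * (n + 1)

theorem main_fin_aux (n : ℕ) : ∀ k ≤ n, ∀ (ι : Type) [Fintype ι] (A : L → P → Multiset Ug) (ψ : ι → L → X),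
    ((Fintype.card L + 1).factorial * n ^ 2 * (Fintype.card L * n) + 1) ^ k * (n + 1) ≤ Fintype.card ι →
    (∀ v, ∑ i, Multiset.card (A i v) ≤ k) →
    (∀ v i j, i ≠ j → ∀ e e', 𝒜.value (ψ e i) v / 𝒜.value (ψ e j) v =
      𝒜.value (ψ e' i) v / 𝒜.value (ψ e' j) v → e = e') →
    (∀ e, Lifts 𝒜 (fam 𝒜 A (ψ e))) → ∀ i, Lifts 𝒜 (A i) := by
  classical
  intro k
  induction k with
  | zero =>
    intro _ ι _ A ψ _ hk _ _ i
    refine lifts_zero 𝒜 fun v => ?_
    have h := Nat.le_zero.1 (hk v)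
    exact Multiset.card_eq_zero.1 ((Finset.sum_eq_zero_iff.1 h) i (Finset.mem_univ i))
  | succ k ih =>
    intro hkn ι _ A ψ hcard hk hinj hl
    rcases isEmpty_or_nonempty P with hP | ⟨⟨v₀⟩⟩
    · exact fun i => lifts_zero 𝒜 fun v => (hP.false v).elim
    choose C hC using hl
    replace hC : ∀ e v, param 𝒜 (C e) v = fam 𝒜 A (ψ e) v := fun e v => (hC e v).symm
    by_cases hz : ∃ e, C e = 0
    · obtain ⟨e, he⟩ := hz
      have h0 : ∀ v, fam 𝒜 A (ψ e) v = 0 := fun v => by rw [← hC, he, param_zero]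
      exact fun i => lifts_zero 𝒜 fun v => all_zero 𝒜 h0 i v
    push Not at hz
    set g := (Fintype.card L + 1).factorial * n ^ 2 * (Fintype.card L * n) with hg
    have hM0 : 0 < (g + 1) ^ k * (n + 1) := by positivity
    have hι : 0 < Fintype.card ι := lt_of_lt_of_le (by positivity) hcard
    have hne : Nonempty ι := Fintype.card_pos_iff.1 hι
    obtain ⟨i, τ, hM⟩ := common_fin 𝒜 hC v₀ (n := n) (by omega) ((hk v₀).trans hkn) hz (hinj v₀)
      ((g + 1) ^ k * (n + 1)) hM0 (by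
        refine le_trans ?_ hcard
        rw [pow_succ (g + 1) k, ← hg]
        nlinarith [Nat.zero_le ((g + 1) ^ k * (n + 1))])
    rw [Nat.card_eq_fintype_card] at hM
    have hle : ∀ v, 𝒜.sat τ v ≤ A i v := by
      intro v
      refine sat_le_of_good 𝒜 hC i τ v fun β => ?_
      by_contra hno
      push Not at hno
      have hcov : (univ.filter fun e : ι => 𝒜.twist (ψ e i) τ ∈ C e) ⊆
          (univ.erase i).biUnion fun j => (A j v).toFinset.biUnion fun α =>
            univ.filter fun e : ι => 𝒜.value (ψ e i) v / 𝒜.value (ψ e j) v = α / β := by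
        intro e he
        obtain ⟨j, hj, α, hα, h⟩ := hno e (Finset.mem_filter.1 he).2
        exact Finset.mem_biUnion.2 ⟨j, Finset.mem_erase.2 ⟨hj, Finset.mem_univ _⟩, Finset.mem_biUnion.2
          ⟨α, Multiset.mem_toFinset.2 hα, Finset.mem_filter.2 ⟨Finset.mem_univ _, h⟩⟩⟩
      have h1 : (univ.filter fun e : ι => 𝒜.twist (ψ e i) τ ∈ C e).card ≤ n := by
        refine (Finset.card_le_card hcov).trans (Finset.card_biUnion_le.trans ?_)
        refine le_trans ?_ ((hk v).trans hkn)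
        refine le_trans (Finset.sum_le_sum fun j hj => ?_) (Finset.sum_le_sum_of_subset (Finset.subset_univ _))
        refine (Finset.card_biUnion_le_card_mul _ _ 1 fun α _ => ?_).trans ?_
        · rw [Finset.card_le_one]
          intro e he e' he'
          exact hinj v i j (Finset.mem_erase.1 hj).1.symm e e'
            ((Finset.mem_filter.1 he).2.trans (Finset.mem_filter.1 he').2.symm)
        · rw [mul_one]
          exact Multiset.toFinset_card_le _
      rw [Fintype.card_subtype] at hM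
      have h2 : n + 1 ≤ (g + 1) ^ k * (n + 1) := Nat.le_mul_of_pos_left _ (by positivity)
      omega
    refine lifts_of_rem 𝒜 hle (ih (by omega) {e : ι // 𝒜.twist (ψ e i) τ ∈ C e} (rem 𝒜 A i τ)
      (fun e => ψ e.1) hM ?_ ?_ ?_)
    · intro v
      have h1 := card_rem 𝒜 (hle v)
      have h2 := hk v
      have h3 := 𝒜.deg_pos τ
      omega
    · exact fun v a b hab e e' h => Subtype.ext (hinj v a b hab e.1 e'.1 h)
    · exact fun e => lifts_rem 𝒜 hle (hC e.1) e.2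

/-- **Few twists.** -/
theorem main_fin {n : ℕ} {ι : Type} [Fintype ι] {A : L → P → Multiset Ug} {ψ : ι → L → X}
    (hcard : bound (Fintype.card L) n ≤ Fintype.card ι) (hn : ∀ v, ∑ i, Multiset.card (A i v) ≤ n)
    (hinj : ∀ v i j, i ≠ j → ∀ e e', 𝒜.value (ψ e i) v / 𝒜.value (ψ e j) v =
      𝒜.value (ψ e' i) v / 𝒜.value (ψ e' j) v → e = e')
    (hl : ∀ e, Lifts 𝒜 (fam 𝒜 A (ψ e))) : ∀ i, Lifts 𝒜 (A i) :=
  main_fin_aux 𝒜 n n le_rfl ι A ψ hcard hn hinj hl

theorem main_inf_aux (v₀ : P) : ∀ (k : ℕ) (ι : Type) [Infinite ι] (A : L → P → Multiset Ug) (ψ : ι → L → X),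
    (∑ i, Multiset.card (A i v₀) ≤ k) →
    (∀ v i j, i ≠ j → ∀ c, {e : ι | 𝒜.value (ψ e i) v / 𝒜.value (ψ e j) v = c}.Finite) →
    (∀ e, Lifts 𝒜 (fam 𝒜 A (ψ e))) → ∀ i, Lifts 𝒜 (A i) := by
  classical
  intro k
  induction k with
  | zero =>
    intro ι _ A ψ hk _ hl
    have hne : Nonempty ι := inferInstance
    obtain ⟨e⟩ := hne
    obtain ⟨C, hC⟩ := hl e
    have h1 : C = 0 := by
      have h2 := card_le_card_param 𝒜 C v₀
      rw [← hC, card_fam] at h2
      exact Multiset.card_eq_zero.1 (by omega)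
    have h0 : ∀ v, fam 𝒜 A (ψ e) v = 0 := fun v => by rw [hC, h1, param_zero]
    exact fun i => lifts_zero 𝒜 fun v => all_zero 𝒜 h0 i v
  | succ k ih =>
    intro ι _ A ψ hk hfin hl
    choose C hC using hl
    replace hC : ∀ e v, param 𝒜 (C e) v = fam 𝒜 A (ψ e) v := fun e v => (hC e v).symm
    by_cases hz : ∃ e, C e = 0
    · obtain ⟨e, he⟩ := hz
      have h0 : ∀ v, fam 𝒜 A (ψ e) v = 0 := fun v => by rw [← hC, he, param_zero]
      exact fun i => lifts_zero 𝒜 fun v => all_zero 𝒜 h0 i v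
    push Not at hz
    obtain ⟨i, τ, hM⟩ := common_inf 𝒜 hC v₀ hz (hfin v₀)
    have hle : ∀ v, 𝒜.sat τ v ≤ A i v := by
      intro v
      refine sat_le_of_good 𝒜 hC i τ v fun β => ?_
      by_contra hno
      push Not at hno
      refine hM (Set.Finite.subset (s := ⋃ j : L, ⋃ α ∈ (A j v).toFinset,
        {e : ι | i ≠ j ∧ 𝒜.value (ψ e i) v / 𝒜.value (ψ e j) v = α / β}) ?_ ?_)
      · refine Set.finite_iUnion fun j => Set.Finite.biUnion (A j v).toFinset.finite_toSet fun α _ => ?_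
        by_cases hij : i = j
        · refine Set.finite_empty.subset ?_
          rintro e' ⟨h, -⟩
          exact h hij
        · refine (hfin v i j hij (α / β)).subset ?_
          rintro e' ⟨-, h⟩
          exact h
      · intro e he
        obtain ⟨j, hj, α, hα, h⟩ := hno e he
        exact Set.mem_iUnion.2 ⟨j, Set.mem_biUnion (Multiset.mem_toFinset.2 hα) ⟨hj.symm, h⟩⟩
    have hinf : Infinite {e : ι // 𝒜.twist (ψ e i) τ ∈ C e} := hM.to_subtype
    refine lifts_of_rem 𝒜 hle (ih {e : ι // 𝒜.twist (ψ e i) τ ∈ C e} (rem 𝒜 A i τ)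
      (fun e => ψ e.1) ?_ ?_ ?_)
    · have h1 := card_rem 𝒜 (hle v₀)
      have h3 := 𝒜.deg_pos τ
      omega
    · intro v a b hab c
      exact (hfin v a b hab c).preimage Subtype.val_injective.injOn
    · exact fun e => lifts_rem 𝒜 hle (hC e.1) e.2

/-- **Infinitely many twists.** -/
theorem main_inf {ι : Type} [Infinite ι] {A : L → P → Multiset Ug} {ψ : ι → L → X}
    (hfin : ∀ v i j, i ≠ j → ∀ c, {e : ι | 𝒜.value (ψ e i) v / 𝒜.value (ψ e j) v = c}.Finite)
    (hl : ∀ e, Lifts 𝒜 (fam 𝒜 A (ψ e))) : ∀ i, Lifts 𝒜 (A i) := by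
  rcases isEmpty_or_nonempty P with hP | ⟨⟨v₀⟩⟩
  · exact fun i => lifts_zero 𝒜 fun v => (hP.false v).elim
  · exact main_inf_aux 𝒜 v₀ _ ι A ψ le_rfl hfin hl

/-- the converse -/
theorem lifts_fam {A : L → P → Multiset Ug} (h : ∀ i, Lifts 𝒜 (A i)) (ψ : L → X) : Lifts 𝒜 (fam 𝒜 A ψ) := by
  choose C hC using h
  refine ⟨∑ i, (C i).map (𝒜.twist (ψ i)), fun v => ?_⟩
  rw [param_sum]
  refine Finset.sum_congr rfl fun i _ => ?_
  rw [param_twist, hC]

end Run7.h55.FG
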