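import Pool.Agent.Run7.h55.FG.Tri
import Pool.Agent.Run7.h55.FG.Main
import Pool.Agent.Run7.h427.DT.Pow
import Pool.Agent.Run7.h427.PL.Sem

/-!
# The characters of the irreducible representations of a topological group
-/

set_option autoImplicit false
set_option linter.unusedSectionVars false

namespace Run7.h55.FG

open Matrix Run7.h427.DS Run7.h427.DT Run7.h427.PL Module

section eigenvalues

variable {k : Type} [Field k] {n : ℕ}

theorem root_ne_zero (A : GL (Fin n) k) {a : k} (ha : a ∈ (A : Matrix (Fin n) (Fin n) k).charpoly.roots) : a ≠ 0 := by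
  rintro rfl
  have h1 := (Polynomial.mem_roots'.1 ha).2
  rw [Polynomial.IsRoot.def, ← Polynomial.coeff_zero_eq_eval_zero] at h1
  have h2 := Matrix.det_eq_sign_charpoly_coeff (A : Matrix (Fin n) (Fin n) k)
  rw [h1, mul_zero] at h2
  have h3 : ((A.det : kˣ) : k) = 0 := by rw [Matrix.GeneralLinearGroup.val_det_apply]; exact h2
  exact A.det.ne_zero h3

/-- the eigenvalues of an invertible matrix -/
noncomputable def ueig (A : GL (Fin n) k) : Multiset kˣ :=
  (A : Matrix (Fin n) (Fin n) k).charpoly.roots.attach.map fun a => Units.mk0 a.1 (root_ne_zero A a.2)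

theorem val_ueig (A : GL (Fin n) k) : (ueig A).map Units.val = (A : Matrix (Fin n) (Fin n) k).charpoly.roots := by
  unfold ueig
  rw [Multiset.map_map]
  exact Multiset.attach_map_val _

theorem units_ext {s t : Multiset kˣ} (h : s.map Units.val = t.map Units.val) : s = t :=
  Multiset.map_injective Units.val_injective h

theorem ueig_congr {m : ℕ} {A : GL (Fin n) k} {B : GL (Fin m) k}
    (h : (A : Matrix (Fin n) (Fin n) k).charpoly = (B : Matrix (Fin m) (Fin m) k).charpoly) : ueig A = ueig B :=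
  units_ext (by rw [val_ueig, val_ueig, h])

theorem ueig_of_prod {J : Type} (C : Multiset J) (d : J → ℕ) (B : ∀ j, GL (Fin (d j)) k) (A : GL (Fin n) k)
    (h : (A : Matrix (Fin n) (Fin n) k).charpoly =
      (C.map fun j => (B j : Matrix (Fin (d j)) (Fin (d j)) k).charpoly).prod) :
    ueig A = (C.map fun j => ueig (B j)).sum := by
  apply units_ext
  rw [val_ueig, h, Polynomial.roots_multiset_prod _ (by
    intro h0
    rw [Multiset.mem_map] at h0
    obtain ⟨j, -, hj⟩ := h0
    exact (Matrix.charpoly_monic _).ne_zero hj)]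
  rw [Multiset.bind_map]
  unfold Multiset.bind Multiset.join
  have h1 : ∀ s : Multiset (Multiset kˣ), (s.sum).map Units.val = (s.map fun t => t.map Units.val).sum := by
    intro s
    induction s using Multiset.induction_on with
    | empty => simp
    | cons a s ih => rw [Multiset.sum_cons, Multiset.map_add, ih, Multiset.map_cons, Multiset.sum_cons]
  rw [h1, Multiset.map_map]
  congr 1
  refine Multiset.map_congr rfl fun j _ => ?_
  rw [Function.comp_apply, val_ueig]

theorem sum_ueig [IsAlgClosed k] (A : GL (Fin n) k) :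
    ((ueig A).map Units.val).sum = (A : Matrix (Fin n) (Fin n) k).trace := by
  rw [val_ueig]
  have h := trace_pow_eq' (A : Matrix (Fin n) (Fin n) k) 1
  simp only [pow_one, Multiset.map_id'] at h
  exact h.symm

theorem card_ueig [IsAlgClosed k] (A : GL (Fin n) k) : Multiset.card (ueig A) = n := by
  have h : Multiset.card ((ueig A).map Units.val) = n := by
    rw [val_ueig, ← (IsAlgClosed.splits (A : Matrix (Fin n) (Fin n) k).charpoly).natDegree_eq_card_roots,
      Matrix.charpoly_natDegree_eq_dim, Fintype.card_fin]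
  rwa [Multiset.card_map] at h

theorem ueig_smul [IsAlgClosed k] [CharZero k] (A B : GL (Fin n) k) (c : kˣ)
    (h : (B : Matrix (Fin n) (Fin n) k) = (c : k) • (A : Matrix (Fin n) (Fin n) k)) :
    ueig B = (ueig A).map fun a => c * a := by
  apply units_ext
  rw [val_ueig, Multiset.map_map]
  apply eq_of_pow_sums
  intro j
  rw [← trace_pow_eq', h, smul_pow, Matrix.trace_smul, trace_pow_eq', ← val_ueig, Multiset.map_map, Multiset.map_map,
    smul_eq_mul, ← Multiset.sum_map_mul_left]
  congr 1
  refine Multiset.map_congr rfl fun a _ => ?_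
  simp only [Function.comp_apply, Units.val_mul, mul_pow]

end eigenvalues

variable {G : Type} [Group G] {k : Type} [Field k] {n m N : ℕ}

theorem charpoly_eq [CharZero k] {ρ : G →* GL (Fin n) k} {σ : G →* GL (Fin m) k} (hρ : Semis ρ) (hσ : Semis σ)
    (h : ∀ g, (ρ g : Matrix (Fin n) (Fin n) k).trace = (σ g : Matrix (Fin m) (Fin m) k).trace) (g : G) :
    (ρ g : Matrix (Fin n) (Fin n) k).charpoly = (σ g : Matrix (Fin m) (Fin m) k).charpoly := by
  have h1 := h 1
  rw [map_one, map_one, Units.val_one, Units.val_one, Matrix.trace_one, Matrix.trace_one, Fintype.card_fin,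
    Fintype.card_fin] at h1
  have h2 : n = m := by exact_mod_cast h1
  subst h2
  obtain ⟨A, hA⟩ := exists_iso hρ hσ h
  rw [hA, charpoly_conj]

theorem charpoly_of_isCompl {ρ : G →* GL (Fin N) k} {U W : Submodule k (Fin N → k)} (hU : Stab ρ U) (hW : Stab ρ W)
    (h : IsCompl U W) (g : G) :
    (ρ g : Matrix (Fin N) (Fin N) k).charpoly = (act ρ U hU g).charpoly * (act ρ W hW g).charpoly := by
  rw [← LinearMap.charpoly_prodMap, ← LinearEquiv.charpoly_conj (Submodule.prodEquivOfIsCompl U W h),
    ← Matrix.charpoly_toLin']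
  congr 1
  apply LinearMap.ext
  intro x
  obtain ⟨⟨u, w⟩, rfl⟩ := (Submodule.prodEquivOfIsCompl U W h).surjective x
  rw [LinearEquiv.conj_apply_apply, LinearEquiv.symm_apply_apply, LinearMap.prodMap_apply,
    Submodule.coe_prodEquivOfIsCompl', Submodule.coe_prodEquivOfIsCompl', map_add, act_apply, act_apply,
    Matrix.toLin'_apply, Matrix.toLin'_apply]

/-! ### twists -/

/-- the twist by a character -/
noncomputable def tws (χ : G →* kˣ) (ρ : G →* GL (Fin n) k) : G →* GL (Fin n) k :=
  MonoidHom.toHomUnits ⟨⟨fun g => (χ g : k) • (ρ g : Matrix (Fin n) (Fin n) k), by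
    rw [map_one, map_one, Units.val_one, Units.val_one, one_smul]⟩, fun g h => by
    dsimp only
    rw [map_mul, map_mul, Units.val_mul, Units.val_mul, smul_mul_smul_comm]⟩

theorem tws_apply (χ : G →* kˣ) (ρ : G →* GL (Fin n) k) (g : G) :
    (tws χ ρ g : Matrix (Fin n) (Fin n) k) = (χ g : k) • (ρ g : Matrix (Fin n) (Fin n) k) := rfl

theorem stab_tws {χ : G →* kˣ} {ρ : G →* GL (Fin n) k} {W : Submodule k (Fin n → k)} :
    Stab (tws χ ρ) W ↔ Stab ρ W := by
  constructor
  · intro h g w hw
    have h1 := h g w hw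
    rw [tws_apply, Matrix.smul_mulVec] at h1
    have h2 := W.smul_mem ((χ g)⁻¹ : kˣ).val h1
    rwa [smul_smul, ← Units.val_mul, inv_mul_cancel, Units.val_one, one_smul] at h2
  · intro h g w hw
    rw [tws_apply, Matrix.smul_mulVec]
    exact W.smul_mem _ (h g w hw)

theorem Irr.tws {ρ : G →* GL (Fin n) k} (h : Irr ρ) (χ : G →* kˣ) : Irr (tws χ ρ) :=
  ⟨h.1, fun W hW => h.2 W (stab_tws.1 hW)⟩

/-! ### admissible representations -/

variable [TopologicalSpace G] [TopologicalSpace k] {I Fr : Set G}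

/-- the representation is continuous, trivial on `I`, and semisimple at the elements of `Fr` -/
structure Adm (I Fr : Set G) (ρ : G →* GL (Fin n) k) : Prop where
  cont : Continuous fun g => (ρ g : Matrix (Fin n) (Fin n) k)
  triv : ∀ τ ∈ I, ρ τ = 1
  ss : ∀ σ ∈ Fr, SSm (ρ σ : Matrix (Fin n) (Fin n) k)

theorem Adm.blk {ρ : G →* GL (Fin n) k} {σ : G →* GL (Fin m) k} (hρ : Adm I Fr ρ) (hσ : Adm I Fr σ) :
    Adm I Fr (blk ρ σ) := by
  refine ⟨?_, fun τ hτ => ?_, fun τ hτ => ssm_bm (hρ.ss τ hτ) (hσ.ss τ hτ)⟩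
  · have h := Continuous.matrix_fromBlocks hρ.cont (continuous_const (y := (0 : Matrix (Fin n) (Fin m) k)))
      (continuous_const (y := (0 : Matrix (Fin m) (Fin n) k))) hσ.cont
    exact h.matrix_submatrix _ _
  · apply Units.ext
    rw [blk_apply, hρ.triv τ hτ, hσ.triv τ hτ, Units.val_one, Units.val_one, bm_one, Units.val_one]

theorem Adm.tws [IsTopologicalRing k] {ρ : G →* GL (Fin n) k} (hρ : Adm I Fr ρ) {χ : G →* kˣ}
    (hχ : Continuous fun g => (χ g : k)) (hχ' : ∀ τ ∈ I, χ τ = 1) : Adm I Fr (tws χ ρ) := by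
  refine ⟨?_, fun τ hτ => ?_, fun τ hτ => ssm_smul (hρ.ss τ hτ) _⟩
  · exact hχ.smul hρ.cont
  · apply Units.ext
    rw [tws_apply, hρ.triv τ hτ, hχ' τ hτ, Units.val_one, one_smul]

/-- `f` is the character of an irreducible representation -/
def IsChar (I Fr : Set G) (f : G → k) : Prop :=
  ∃ (n : ℕ) (ρ : G →* GL (Fin n) k), Irr ρ ∧ Adm I Fr ρ ∧ ∀ g, (ρ g : Matrix (Fin n) (Fin n) k).trace = f g

/-- the irreducible characters -/
def Chr (I Fr : Set G) (k : Type) [Field k] [TopologicalSpace k] : Type := {f : G → k // IsChar I Fr f}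

/-- the degree -/
noncomputable def Chr.dg (f : Chr I Fr k) : ℕ := f.2.choose

/-- the representation -/
noncomputable def Chr.ρ (f : Chr I Fr k) : G →* GL (Fin f.dg) k := f.2.choose_spec.choose

theorem Chr.irr (f : Chr I Fr k) : Irr f.ρ := f.2.choose_spec.choose_spec.1

theorem Chr.adm (f : Chr I Fr k) : Adm I Fr f.ρ := f.2.choose_spec.choose_spec.2.1

theorem Chr.trace (f : Chr I Fr k) (g : G) : (f.ρ g : Matrix (Fin f.dg) (Fin f.dg) k).trace = f.1 g :=
  f.2.choose_spec.choose_spec.2.2 g

theorem exists_dec [IsTopologicalRing k] [CharZero k] : ∀ (N : ℕ) (ρ : G →* GL (Fin N) k), Adm I Fr ρ →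
    ∃ C : Multiset (Chr I Fr k), ∀ g, (ρ g : Matrix (Fin N) (Fin N) k).charpoly =
      (C.map fun f => (f.ρ g : Matrix (Fin f.dg) (Fin f.dg) k).charpoly).prod := by
  intro N
  induction N using Nat.strong_induction_on with
  | _ N ih =>
  intro ρ hA
  rcases Nat.eq_zero_or_pos N with rfl | hN
  · refine ⟨0, fun g => ?_⟩
    rw [Multiset.map_zero, Multiset.prod_zero, Matrix.charpoly, Matrix.det_isEmpty]
  by_cases hirr : Irr ρ
  · let f : Chr I Fr k := ⟨fun g => (ρ g : Matrix (Fin N) (Fin N) k).trace, N, ρ, hirr, hA, fun _ => rfl⟩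
    refine ⟨{f}, fun g => ?_⟩
    rw [Multiset.map_singleton, Multiset.prod_singleton]
    exact charpoly_eq hirr.semis f.irr.semis (fun g => (f.trace g).symm) g
  · have h1 : ∃ U : Submodule k (Fin N → k), Stab ρ U ∧ U ≠ ⊥ ∧ U ≠ ⊤ := by
      by_contra hno
      push Not at hno
      refine hirr ⟨hN, fun W hW => ?_⟩
      by_cases h0 : W = ⊥
      · exact Or.inl h0
      · exact Or.inr (hno W hW h0)
    obtain ⟨U, hU, hU0, hU1⟩ := h1
    obtain ⟨a, b, X, Y, Q, Q', ha, hb, hQ, hQ', hch, hbl⟩ := exists_tri hU hU0 hU1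
    choose B hB using hbl
    have hM : Continuous fun g => Q * (ρ g : Matrix (Fin N) (Fin N) k) * Q' :=
      (continuous_const.matrix_mul hA.cont).matrix_mul continuous_const
    have hX11 : ∀ g, (Q * (ρ g : Matrix (Fin N) (Fin N) k) * Q').submatrix Sum.inl Sum.inl =
        (X g : Matrix (Fin a) (Fin a) k) := fun g => by rw [hB g]; rfl
    have hY22 : ∀ g, (Q * (ρ g : Matrix (Fin N) (Fin N) k) * Q').submatrix Sum.inr Sum.inr =
        (Y g : Matrix (Fin b) (Fin b) k) := fun g => by rw [hB g]; rfl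
    obtain ⟨C, hC⟩ := ih a ha X (by
      refine ⟨?_, fun τ hτ => ?_, fun σ hσ => (ssm_of_blocks hQ hQ' (hB σ) (hA.ss σ hσ)).1⟩
      · simp only [← hX11]
        exact hM.matrix_submatrix _ _
      · apply Units.ext
        rw [← hX11, hA.triv τ hτ, ← map_one ρ, hX11, map_one])
    obtain ⟨D, hD⟩ := ih b hb Y (by
      refine ⟨?_, fun τ hτ => ?_, fun σ hσ => (ssm_of_blocks hQ hQ' (hB σ) (hA.ss σ hσ)).2⟩
      · simp only [← hY22]
        exact hM.matrix_submatrix _ _
      · apply Units.ext
        rw [← hY22, hA.triv τ hτ, ← map_one ρ, hY22, map_one])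
    refine ⟨C + D, fun g => ?_⟩
    rw [hch, hC, hD, Multiset.map_add, Multiset.prod_add]

theorem exists_sum (C : Multiset (Chr I Fr k)) : ∃ (N : ℕ) (ρ : G →* GL (Fin N) k), Semis ρ ∧ Adm I Fr ρ ∧
    (∀ g, (ρ g : Matrix (Fin N) (Fin N) k).charpoly =
      (C.map fun f => (f.ρ g : Matrix (Fin f.dg) (Fin f.dg) k).charpoly).prod) ∧
    (∀ g, (ρ g : Matrix (Fin N) (Fin N) k).trace = (C.map fun f => f.1 g).sum) ∧
    ∀ f : Chr I Fr k, Occ f.ρ ρ ↔ f ∈ C := by
  induction C using Multiset.induction_on with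
  | empty =>
    refine ⟨0, 1, ?_, ⟨continuous_const, fun _ _ => rfl, fun _ _ => (ssm_iff _).2 ⟨1, squarefree_one,
      Subsingleton.elim _ _⟩⟩, fun g => ?_, fun g => ?_, fun f => ?_⟩
    · intro W _
      refine ⟨⊤, fun _ _ _ => Submodule.mem_top, ?_⟩
      rw [Subsingleton.elim W ⊥]
      exact isCompl_bot_top
    · rw [Multiset.map_zero, Multiset.prod_zero, Matrix.charpoly, Matrix.det_isEmpty]
    · rw [Multiset.map_zero, Multiset.sum_zero, Matrix.trace_eq_zero_of_isEmpty]
    · constructor
      · rintro ⟨J, hJ, -⟩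
        exact absurd (Subsingleton.elim J 0) hJ
      · intro h
        exact absurd h (Multiset.notMem_zero f)
  | cons f C ih =>
    obtain ⟨N, ρ, h1, h2, h3, h4, h5⟩ := ih
    refine ⟨f.dg + N, blk f.ρ ρ, semis_blk f.irr.semis h1, f.adm.blk h2, fun g => ?_, fun g => ?_, fun g => ?_⟩
    · rw [blk_apply, charpoly_bm, Multiset.map_cons, Multiset.prod_cons, h3]
    · rw [blk_apply, trace_bm, Multiset.map_cons, Multiset.sum_cons, h4, f.trace]
    · rw [Multiset.mem_cons, ← h5]
      constructor
      · intro h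
        rcases h.of_blk with h | h
        · left
          apply Subtype.ext
          funext x
          rw [← g.trace, ← f.trace]
          exact h.trace_eq g.irr f.irr x
        · exact Or.inr h
      · rintro (rfl | h)
        · exact occ_left _ _ g.irr.1
        · exact occ_right _ h

theorem eq_of_tot [CharZero k] : ∀ S T : Multiset (Chr I Fr k),
    (∀ g, (S.map fun f => f.1 g).sum = (T.map fun f => f.1 g).sum) → S = T := by
  classical
  intro S
  induction S using Multiset.induction_on with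
  | empty =>
    intro T h
    obtain ⟨N, ρ, -, -, -, h4, h5⟩ := exists_sum T
    have h1 := h4 1
    rw [← h 1, Multiset.map_zero, Multiset.sum_zero, map_one, Units.val_one, Matrix.trace_one,
      Fintype.card_fin] at h1
    have h2 : N = 0 := by exact_mod_cast h1
    subst h2
    symm
    rw [Multiset.eq_zero_iff_forall_notMem]
    intro f hf
    obtain ⟨J, hJ, -⟩ := (h5 f).2 hf
    exact hJ (Subsingleton.elim J 0)
  | cons f S ih =>
    intro T h
    obtain ⟨N, ρ, hρ, -, -, h4, h5⟩ := exists_sum (f ::ₘ S)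
    obtain ⟨N', ρ', hρ', -, -, h4', h5'⟩ := exists_sum T
    have h1 : ∀ g, (ρ g : Matrix (Fin N) (Fin N) k).trace = (ρ' g : Matrix (Fin N') (Fin N') k).trace := by
      intro g
      rw [h4, h4', h]
    have h2 : N = N' := by
      have := h1 1
      rw [map_one, map_one, Units.val_one, Units.val_one, Matrix.trace_one, Matrix.trace_one, Fintype.card_fin,
        Fintype.card_fin] at this
      exact_mod_cast this
    subst h2
    obtain ⟨A, hA⟩ := exists_iso hρ hρ' h1
    have h3 : f ∈ T := (h5' f).1 (((h5 f).2 (Multiset.mem_cons_self f S)).conj A hA)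
    obtain ⟨T', rfl⟩ := Multiset.exists_cons_of_mem h3
    rw [ih T' fun g => ?_]
    have := h g
    rw [Multiset.map_cons, Multiset.sum_cons, Multiset.map_cons, Multiset.sum_cons] at this
    exact add_left_cancel this

end Run7.h55.FG
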