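import Mathlib
import Pool.Agent.Run7.h55.FG.Main

/-!
# Members outside finitely many exceptional sets
-/

set_option autoImplicit false
set_option linter.unusedSectionVars false

open Finset

namespace Run7.h55.FG

variable {P X Ug : Type} [CommGroup X] [CommGroup Ug] [DecidableEq Ug] (𝒜 : Data P X Ug) {L : Type} [Fintype L]
  [DecidableEq L]

/-- **Not in finitely many exceptional sets.** -/
theorem main_seq (w : P → ℕ) (hw : ∀ m, {v | w v ≤ m}.Finite) {ι : Type} {A : L → P → Multiset Ug} {ψ : ι → L → X}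
    (h : ∀ H : Finset (P × L × L × Ug), (∀ t ∈ H, t.2.1 ≠ t.2.2.1) → ∃ e : ι, Lifts 𝒜 (fam 𝒜 A (ψ e)) ∧
      ∀ t ∈ H, 𝒜.value (ψ e t.2.1) t.1 / 𝒜.value (ψ e t.2.2.1) t.1 ≠ t.2.2.2) :
    ∀ i, Lifts 𝒜 (A i) := by
  classical
  obtain ⟨f, hf1, hf2⟩ := exists_seq_of_forall_finset_exists
    (fun x : ι × ℕ => Lifts 𝒜 (fam 𝒜 A (ψ x.1)))
    (fun x y => x.2 < y.2 ∧ ∀ v, w v ≤ y.2 → ∀ i j, i ≠ j →
      𝒜.value (ψ y.1 i) v / 𝒜.value (ψ y.1 j) v ≠ 𝒜.value (ψ x.1 i) v / 𝒜.value (ψ x.1 j) v) (by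
    intro s _
    let m := s.sup (fun x => x.2) + 1
    obtain ⟨e, he1, he2⟩ := h (((s ×ˢ (hw m).toFinset) ×ˢ ((univ : Finset (L × L)).filter fun p => p.1 ≠ p.2)).image
      fun p => (p.1.2, p.2.1, p.2.2, 𝒜.value (ψ p.1.1.1 p.2.1) p.1.2 / 𝒜.value (ψ p.1.1.1 p.2.2) p.1.2)) (by
        intro t ht
        obtain ⟨p, hp, rfl⟩ := Finset.mem_image.1 ht
        exact (Finset.mem_filter.1 (Finset.mem_product.1 hp).2).2)
    refine ⟨(e, m), he1, fun x hx => ⟨?_, fun v hv i j hij => ?_⟩⟩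
    · exact Nat.lt_succ_of_le (Finset.le_sup (f := fun x : ι × ℕ => x.2) hx)
    · exact he2 (v, i, j, 𝒜.value (ψ x.1 i) v / 𝒜.value (ψ x.1 j) v) (Finset.mem_image.2 ⟨((x, v), (i, j)),
        Finset.mem_product.2 ⟨Finset.mem_product.2 ⟨hx, (hw m).mem_toFinset.2 hv⟩,
          Finset.mem_filter.2 ⟨Finset.mem_univ _, hij⟩⟩, rfl⟩))
  have hmono : StrictMono fun a => (f a).2 := strictMono_nat_of_lt_succ fun a => (hf2 a (a + 1) (Nat.lt_succ_self a)).1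
  refine main_inf 𝒜 (ι := ℕ) (ψ := fun a => ψ (f a).1) ?_ fun a => hf1 a
  intro v i j hij c
  -- beyond `w v` the quotients are different
  have hsub : {a : ℕ | 𝒜.value (ψ (f a).1 i) v / 𝒜.value (ψ (f a).1 j) v = c ∧ w v ≤ a}.Subsingleton := by
    rintro a ⟨ha, ha'⟩ b ⟨hb, hb'⟩
    by_contra hne
    rcases Nat.lt_or_gt_of_ne hne with h1 | h1
    · exact (hf2 a b h1).2 v (hb'.trans (hmono.id_le b)) i j hij (hb.trans ha.symm)
    · exact (hf2 b a h1).2 v (ha'.trans (hmono.id_le a)) i j hij (ha.trans hb.symm)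
  refine ((Set.finite_lt_nat (w v)).union hsub.finite).subset ?_
  intro a ha
  rcases Nat.lt_or_ge a (w v) with h1 | h1
  · exact Or.inl h1
  · exact Or.inr ⟨ha, h1⟩

end Run7.h55.FG
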