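import Pool.Agent.Run7.h55.FG.Inst
import Pool.Agent.Run7.h55.FG.Seq
import Pool.Agent.Run7.h427.PL.Arith
import Pool.Agent.Run7.h427.DS.Bdd

/-!
# The absolute Galois group of a number field
-/

set_option autoImplicit false
set_option linter.unusedSectionVars false

namespace Run7.h55.FG

open Matrix Filter Topology NumberField IsDedekindDomain Run7.h427.DS
open Pool.Agent.W401.Cheb

variable {F : Type} [Field F] [NumberField F] {k : Type} [Field k] [TopologicalSpace k]

/-- a Frobenius element at `v` -/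
noncomputable def frb (v : HeightOneSpectrum (𝓞 F)) : GK F := ((Pool.Agent.W401.Frob.main F).1 v).choose

theorem isFrob_frb (v : HeightOneSpectrum (𝓞 F)) : IsFrob v (frb v) :=
  ((Pool.Agent.W401.Frob.main F).1 v).choose_spec

/-- the inertia elements outside `S` -/
def inr (S : Set (HeightOneSpectrum (𝓞 F))) : Set (GK F) := {τ | ∃ v ∉ S, IsInert v τ}

/-- the Frobenius elements outside `S` -/
def frs (S : Set (HeightOneSpectrum (𝓞 F))) : Set (GK F) := {σ | ∃ v ∉ S, IsFrob v σ}

/-- the chosen Frobenius elements -/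
noncomputable def chs (S : Set (HeightOneSpectrum (𝓞 F))) (v : {v : HeightOneSpectrum (𝓞 F) // v ∉ S}) : GK F := frb v.1

theorem dense_chs {S : Set (HeightOneSpectrum (𝓞 F))} (hS : Tendsto (dens fun v => v ∈ S) atTop (𝓝 0))
    [T2Space k] : Dense (inr S) (chs S) k := by
  intro D hD hconj hmul h0 g
  refine Run7.h427.PL.vanish (⊤ : Subgroup (GK F)) isOpen_univ (fun y => D y)
    (hD.comp continuous_subtype_val) _ hS (fun v hv σ _ hσ => ?_) ⟨g, Subgroup.mem_top g⟩
  obtain ⟨ρ, τ, h1, h2⟩ := (Pool.Agent.W401.Frob.main F).2.1 v (frb v) σ (isFrob_frb v) hσ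
  change D σ = 0
  rw [h2, hmul _ τ ⟨v, hv, h1⟩, hconj]
  exact h0 ⟨v, hv⟩

/-- the norm of the prime -/
noncomputable def nrm (S : Set (HeightOneSpectrum (𝓞 F))) (v : {v : HeightOneSpectrum (𝓞 F) // v ∉ S}) : ℕ :=
  Ideal.absNorm v.1.asIdeal

theorem finite_nrm (S : Set (HeightOneSpectrum (𝓞 F))) (m : ℕ) : {v | nrm S v ≤ m}.Finite := by
  have h1 : {J : Ideal (𝓞 F) | Ideal.absNorm J ≤ m}.Finite := by
    have := Ideal.finite_setOfPred_absNorm_le (S := 𝓞 F) m
    exact this
  refine Set.Finite.of_finite_image (f := fun v : {v : HeightOneSpectrum (𝓞 F) // v ∉ S} => v.1.asIdeal)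
    (h1.subset ?_) ?_
  · rintro _ ⟨v, hv, rfl⟩
    exact hv
  · rintro v - w - h
    exact Subtype.ext (HeightOneSpectrum.ext h)

end Run7.h55.FG
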