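import Pool.Agent.Run7.h55.FG.Dec

/-!
# The data of a topological group with a dense set of conjugacy classes
-/

set_option autoImplicit false
set_option linter.unusedSectionVars false

namespace Run7.h55.FG

open Matrix Run7.h427.DS Run7.h427.DT Run7.h427.PL Module

variable {G : Type} [Group G] [TopologicalSpace G] [IsTopologicalGroup G] {k : Type} [Field k] [TopologicalSpace k]
  [IsTopologicalRing k] {I Fr : Set G}

/-- the continuous characters which are trivial on `I` -/
def chars (I : Set G) (k : Type) [Field k] [TopologicalSpace k] [IsTopologicalRing k] : Subgroup (G →* kˣ) where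
  carrier := {χ | (Continuous fun g => (χ g : k)) ∧ ∀ τ ∈ I, χ τ = 1}
  one_mem' := ⟨continuous_const, fun _ _ => rfl⟩
  mul_mem' := by
    rintro χ η ⟨h1, h2⟩ ⟨h3, h4⟩
    refine ⟨?_, fun τ hτ => ?_⟩
    · exact h1.mul h3
    · rw [MonoidHom.mul_apply, h2 τ hτ, h4 τ hτ, one_mul]
  inv_mem' := by
    rintro χ ⟨h1, h2⟩
    refine ⟨?_, fun τ hτ => ?_⟩
    · have h : (fun g => ((χ⁻¹ g : kˣ) : k)) = fun g => ((χ g⁻¹ : kˣ) : k) := by
        funext g
        rw [MonoidHom.inv_apply, map_inv]
      change Continuous fun g => ((χ⁻¹ g : kˣ) : k)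
      rw [h]
      exact h1.comp continuous_inv
    · rw [MonoidHom.inv_apply, h2 τ hτ, inv_one]

/-- a continuous class function, invariant under `I`, which vanishes on the elements `fr p` is zero -/
def Dense (I : Set G) {P : Type} (fr : P → G) (k : Type) [Field k] [TopologicalSpace k] : Prop :=
  ∀ D : G → k, Continuous D → (∀ g h, D (h * g * h⁻¹) = D g) → (∀ g, ∀ τ ∈ I, D (g * τ) = D g) →
    (∀ p, D (fr p) = 0) → ∀ g, D g = 0

/-- the twist of an irreducible character -/
noncomputable def twc (χ : chars I k) (f : Chr I Fr k) : Chr I Fr k :=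
  ⟨fun g => (χ.1 g : k) * f.1 g, f.dg, tws χ.1 f.ρ, f.irr.tws χ.1, f.adm.tws χ.2.1 χ.2.2, fun g => by
    rw [tws_apply, Matrix.trace_smul, smul_eq_mul, f.trace]⟩

theorem cont_chr (f : Chr I Fr k) : Continuous f.1 := by
  have h : f.1 = fun g => (f.ρ g : Matrix (Fin f.dg) (Fin f.dg) k).trace := funext fun g => (f.trace g).symm
  rw [h]
  exact f.adm.cont.matrix_trace

theorem chr_conj (f : Chr I Fr k) (g h : G) : f.1 (h * g * h⁻¹) = f.1 g := by
  rw [← f.trace, ← f.trace, map_mul, map_mul, map_inv, Run7.h427.PL.trace_conj]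

theorem chr_mul (f : Chr I Fr k) (g : G) {τ : G} (hτ : τ ∈ I) : f.1 (g * τ) = f.1 g := by
  rw [← f.trace, ← f.trace, map_mul, f.adm.triv τ hτ, mul_one]

theorem cont_tot (S : Multiset (Chr I Fr k)) : Continuous fun g => (S.map fun f => f.1 g).sum := by
  induction S using Multiset.induction_on with
  | empty => simpa using (continuous_const : Continuous fun _ : G => (0 : k))
  | cons f S ih =>
    simp only [Multiset.map_cons, Multiset.sum_cons]
    exact (cont_chr f).add ih

theorem chr_of_sat [IsAlgClosed k] (S : Multiset (Chr I Fr k)) (g : G) :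
    (((S.map fun f => ueig (f.ρ g)).sum).map Units.val).sum = (S.map fun f => f.1 g).sum := by
  induction S using Multiset.induction_on with
  | empty => simp
  | cons f S ih =>
    rw [Multiset.map_cons, Multiset.sum_cons, Multiset.map_add, Multiset.sum_add, ih, sum_ueig, Multiset.map_cons,
      Multiset.sum_cons, f.trace]

variable [IsAlgClosed k] [CharZero k]

/-- the data of the group `G`, the set `I` and the elements `fr p` -/
noncomputable def dat (I Fr : Set G) {P : Type} (fr : P → G) (hd : Dense I fr k) : Data P (chars I k) kˣ where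
  value :=
    { toFun := fun χ p => χ.1 (fr p)
      map_one' := rfl
      map_mul' := fun _ _ => rfl }
  Rep := Chr I Fr k
  deg := fun f => f.dg
  deg_pos := fun f => f.irr.1
  sat := fun f p => ueig (f.ρ (fr p))
  card_sat := fun f p => card_ueig _
  twist := twc
  sat_twist := by
    intro χ f p
    change ueig ((twc χ f).ρ (fr p)) = (ueig (f.ρ (fr p))).map fun a => χ.1 (fr p) * a
    have h1 : ueig ((twc χ f).ρ (fr p)) = ueig (tws χ.1 f.ρ (fr p)) := by
      refine ueig_congr (charpoly_eq (twc χ f).irr.semis (f.irr.tws χ.1).semis (fun g => ?_) (fr p))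
      rw [(twc χ f).trace, tws_apply, Matrix.trace_smul, smul_eq_mul, f.trace]
      rfl
    rw [h1]
    exact ueig_smul _ _ _ (tws_apply _ _ _)
  isobaric := by
    intro S T h
    refine eq_of_tot S T fun g => ?_
    have h1 : Continuous fun g => (S.map fun f => f.1 g).sum - (T.map fun f => f.1 g).sum :=
      (cont_tot S).sub (cont_tot T)
    rw [← sub_eq_zero]
    refine hd _ h1 (fun g h => ?_) (fun g τ hτ => ?_) (fun p => ?_) g
    · simp only [chr_conj]
    · simp only [chr_mul _ _ hτ]
    · rw [sub_eq_zero, ← chr_of_sat S, ← chr_of_sat T]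
      exact congrArg (fun s : Multiset kˣ => (s.map Units.val).sum) (h p)

/-- there is a continuous representation, trivial on `I` and semisimple on `Fr`, with the eigenvalues `T p` at `fr p` -/
def HasRep (I Fr : Set G) {P : Type} (fr : P → G) (T : P → Multiset kˣ) : Prop :=
  ∃ (N : ℕ) (R : G →* GL (Fin N) k), Adm I Fr R ∧ ∀ p, ueig (R (fr p)) = T p

theorem lifts_of_hasRep {P : Type} {fr : P → G} (hd : Dense I fr k) {T : P → Multiset kˣ} (h : HasRep I Fr fr T) :
    Lifts (dat I Fr fr hd) T := by
  obtain ⟨N, R, h2, h3⟩ := h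
  obtain ⟨C, hC⟩ := exists_dec N R h2
  refine ⟨C, fun p => ?_⟩
  rw [← h3]
  exact ueig_of_prod C (fun f => f.dg) (fun f => f.ρ (fr p)) _ (hC (fr p))

/-- the representation can be chosen semisimple -/
theorem semis_of_lifts {P : Type} {fr : P → G} (hd : Dense I fr k) {T : P → Multiset kˣ}
    (h : Lifts (dat I Fr fr hd) T) :
    ∃ (N : ℕ) (R : G →* GL (Fin N) k), Semis R ∧ Adm I Fr R ∧ ∀ p, ueig (R (fr p)) = T p := by
  obtain ⟨C, hC⟩ := h
  obtain ⟨N, ρ, h1, h2, h3, -, -⟩ := exists_sum (I := I) (Fr := Fr) (k := k) C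
  refine ⟨N, ρ, h1, h2, fun p => ?_⟩
  rw [hC]
  exact ueig_of_prod C (fun f => f.dg) (fun f => f.ρ (fr p)) _ (h3 (fr p))

theorem hasRep_of_lifts {P : Type} {fr : P → G} (hd : Dense I fr k) {T : P → Multiset kˣ}
    (h : Lifts (dat I Fr fr hd) T) : HasRep I Fr fr T := by
  obtain ⟨N, R, -, h1, h2⟩ := semis_of_lifts hd h
  exact ⟨N, R, h1, h2⟩

end Run7.h55.FG
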