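import Pool.Agent.Run7.h55.FG.Blk

/-!
# Triangular form of a reducible representation; semisimple matrices
-/

set_option autoImplicit false
set_option linter.unusedSectionVars false

namespace Run7.h55.FG

open Matrix Run7.h427.DS Run7.h427.DT Module Polynomial

variable {k : Type} [Field k] {a b n N : ℕ}

/-- the matrix is semisimple, that is, diagonalisable over an algebraically closed field -/
def SSm (A : Matrix (Fin n) (Fin n) k) : Prop := Module.End.IsSemisimple (Matrix.toLin' A)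

theorem aeval_toLin' (A : Matrix (Fin n) (Fin n) k) (p : k[X]) :
    aeval (Matrix.toLin' A) p = Matrix.toLin' (aeval A p) :=
  Polynomial.aeval_algHom_apply (Matrix.toLinAlgEquiv' (R := k) (n := Fin n)).toAlgHom A p

theorem ssm_iff (A : Matrix (Fin n) (Fin n) k) : SSm A ↔ ∃ p : k[X], Squarefree p ∧ aeval A p = 0 := by
  constructor
  · intro h
    refine ⟨minpoly k (Matrix.toLin' A), Module.End.IsSemisimple.minpoly_squarefree h, ?_⟩
    have h1 := minpoly.aeval k (Matrix.toLin' A)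
    rw [aeval_toLin'] at h1
    exact Matrix.toLin'.injective (h1.trans (map_zero _).symm)
  · rintro ⟨p, h1, h2⟩
    refine Module.End.isSemisimple_of_squarefree_aeval_eq_zero h1 ?_
    rw [aeval_toLin', h2, map_zero]

theorem ssm_smul {A : Matrix (Fin n) (Fin n) k} (h : SSm A) (c : k) : SSm (c • A) := by
  unfold SSm
  rw [map_smul]
  exact Module.End.IsSemisimple_smul c h

theorem pow_blocks (A : Matrix (Fin a) (Fin a) k) (B : Matrix (Fin a) (Fin b) k) (D : Matrix (Fin b) (Fin b) k)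
    (m : ℕ) : ∃ C, (Matrix.fromBlocks A B 0 D) ^ m = Matrix.fromBlocks (A ^ m) C 0 (D ^ m) := by
  induction m with
  | zero => exact ⟨0, by rw [pow_zero, pow_zero, pow_zero, Matrix.fromBlocks_one]⟩
  | succ m ih =>
    obtain ⟨C, hC⟩ := ih
    refine ⟨A ^ m * B + C * D, ?_⟩
    rw [pow_succ, hC, Matrix.fromBlocks_multiply, pow_succ, pow_succ]
    simp

theorem aeval_blocks (A : Matrix (Fin a) (Fin a) k) (B : Matrix (Fin a) (Fin b) k) (D : Matrix (Fin b) (Fin b) k)
    (p : k[X]) : ∃ C, aeval (Matrix.fromBlocks A B 0 D) p = Matrix.fromBlocks (aeval A p) C 0 (aeval D p) := by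
  induction p using Polynomial.induction_on' with
  | add p q hp hq =>
    obtain ⟨C, hC⟩ := hp
    obtain ⟨C', hC'⟩ := hq
    refine ⟨C + C', ?_⟩
    rw [map_add, hC, hC', Matrix.fromBlocks_add, map_add, map_add, add_zero]
  | monomial m c =>
    obtain ⟨C, hC⟩ := pow_blocks A B D m
    refine ⟨c • C, ?_⟩
    rw [aeval_monomial, aeval_monomial, aeval_monomial, ← Algebra.smul_def, ← Algebra.smul_def, ← Algebra.smul_def, hC,
      Matrix.fromBlocks_smul, smul_zero]

theorem aeval_conj {J : Type} [Fintype J] [DecidableEq J] {Q : Matrix J (Fin N) k} {Q' : Matrix (Fin N) J k}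
    (h : Q * Q' = 1) (h' : Q' * Q = 1) (A : Matrix (Fin N) (Fin N) k) (p : k[X]) :
    aeval (Q * A * Q') p = Q * aeval A p * Q' := by
  have hp : ∀ m : ℕ, (Q * A * Q') ^ m = Q * A ^ m * Q' := by
    intro m
    induction m with
    | zero => rw [pow_zero, pow_zero, Matrix.mul_one, h]
    | succ m ih =>
      rw [pow_succ, ih, pow_succ, Matrix.mul_assoc (Q * A ^ m) Q' (Q * A * Q'), ← Matrix.mul_assoc Q' (Q * A) Q',
        ← Matrix.mul_assoc Q' Q A, h', Matrix.one_mul]
      simp only [Matrix.mul_assoc]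
  induction p using Polynomial.induction_on' with
  | add p q hp hq => rw [map_add, hp, hq, map_add, Matrix.mul_add, Matrix.add_mul]
  | monomial m c =>
    rw [aeval_monomial, aeval_monomial, ← Algebra.smul_def, ← Algebra.smul_def, hp, Matrix.mul_smul, Matrix.smul_mul]

theorem ssm_iffF (A : Matrix (Fin n) (Fin n) k) : SSm A ↔ SemisF (fun _ : Unit => A) := by
  unfold SSm SemisF
  rw [Module.End.isSemisimple_iff]
  constructor
  · intro h W hW
    obtain ⟨q, hq, hc⟩ := h W (by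
      rw [Module.End.mem_invtSubmodule]
      intro w hw
      rw [Submodule.mem_comap, Matrix.toLin'_apply]
      exact hW () w hw)
    refine ⟨q, fun _ w hw => ?_, hc⟩
    rw [Module.End.mem_invtSubmodule] at hq
    have := hq hw
    rwa [Submodule.mem_comap, Matrix.toLin'_apply] at this
  · intro h W hW
    obtain ⟨q, hq, hc⟩ := h W (by
      intro _ w hw
      rw [Module.End.mem_invtSubmodule] at hW
      have := hW hw
      rwa [Submodule.mem_comap, Matrix.toLin'_apply] at this)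
    refine ⟨q, ?_, hc⟩
    rw [Module.End.mem_invtSubmodule]
    intro w hw
    rw [Submodule.mem_comap, Matrix.toLin'_apply]
    exact hq () w hw

theorem ssm_bm {A : Matrix (Fin a) (Fin a) k} {D : Matrix (Fin b) (Fin b) k} (hA : SSm A) (hD : SSm D) :
    SSm (bm A D) := by
  rw [ssm_iffF] at hA hD ⊢
  exact semisF_bm hA hD

theorem ssm_of_blocks {Q : Matrix (Fin a ⊕ Fin b) (Fin N) k} {Q' : Matrix (Fin N) (Fin a ⊕ Fin b) k}
    (h : Q * Q' = 1) (h' : Q' * Q = 1) {M : Matrix (Fin N) (Fin N) k} {A : Matrix (Fin a) (Fin a) k}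
    {B : Matrix (Fin a) (Fin b) k} {D : Matrix (Fin b) (Fin b) k} (hM : Q * M * Q' = Matrix.fromBlocks A B 0 D)
    (hs : SSm M) : SSm A ∧ SSm D := by
  obtain ⟨p, hp, hp'⟩ := (ssm_iff M).1 hs
  obtain ⟨C, hC⟩ := aeval_blocks A B D p
  rw [← hM, aeval_conj h h', hp', Matrix.mul_zero, Matrix.zero_mul] at hC
  have h1 := congrArg Matrix.toBlocks₁₁ hC
  have h2 := congrArg Matrix.toBlocks₂₂ hC
  rw [Matrix.toBlocks_fromBlocks₁₁] at h1
  rw [Matrix.toBlocks_fromBlocks₂₂] at h2
  exact ⟨(ssm_iff A).2 ⟨p, hp, h1.symm⟩, (ssm_iff D).2 ⟨p, hp, h2.symm⟩⟩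

variable {G : Type} [Group G]

/-- the triangular form -/
theorem exists_tri {ρ : G →* GL (Fin N) k} {U : Submodule k (Fin N → k)} (hU : Stab ρ U) (h0 : U ≠ ⊥) (h1 : U ≠ ⊤) :
    ∃ (a b : ℕ) (X : G →* GL (Fin a) k) (Y : G →* GL (Fin b) k) (Q : Matrix (Fin a ⊕ Fin b) (Fin N) k)
      (Q' : Matrix (Fin N) (Fin a ⊕ Fin b) k), a < N ∧ b < N ∧ Q * Q' = 1 ∧ Q' * Q = 1 ∧
      (∀ g, (ρ g : Matrix (Fin N) (Fin N) k).charpoly =
        (X g : Matrix (Fin a) (Fin a) k).charpoly * (Y g : Matrix (Fin b) (Fin b) k).charpoly) ∧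
      ∀ g, ∃ B, Q * (ρ g : Matrix (Fin N) (Fin N) k) * Q' =
        Matrix.fromBlocks (X g : Matrix (Fin a) (Fin a) k) B 0 (Y g : Matrix (Fin b) (Fin b) k) := by
  classical
  obtain ⟨W, hUW⟩ := Submodule.exists_isCompl U
  have hfin : finrank k U + finrank k W = N := by
    have := Submodule.finrank_add_eq_of_isCompl hUW
    simpa using this
  have hU0 : 0 < finrank k U := by
    rw [Nat.pos_iff_ne_zero]
    exact fun h => h0 (Submodule.finrank_eq_zero.1 h)
  have hUN : finrank k U < N := by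
    have := Submodule.finrank_lt h1
    simpa using this
  let bU := finBasis k U
  let bW := finBasis k W
  let c : Basis (Fin (finrank k U) ⊕ Fin (finrank k W)) k (Fin N → k) :=
    (bU.prod bW).map (Submodule.prodEquivOfIsCompl U W hUW)
  have hcl : ∀ i, c (Sum.inl i) = (bU i : Fin N → k) := by
    intro i
    simp [c]
  have hrepr : ∀ x ∈ U, ∀ j, c.repr x (Sum.inr j) = 0 := by
    intro x hx j
    simp only [c, Basis.map_repr, LinearEquiv.trans_apply]
    have h2 : (Submodule.prodEquivOfIsCompl U W hUW).symm x = (⟨x, hx⟩, 0) := by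
      rw [LinearEquiv.symm_apply_eq]
      simp
    rw [h2]
    simp
  let s := Pi.basisFun k (Fin N)
  let Q : Matrix (Fin (finrank k U) ⊕ Fin (finrank k W)) (Fin N) k := c.toMatrix s
  let Q' : Matrix (Fin N) (Fin (finrank k U) ⊕ Fin (finrank k W)) k := s.toMatrix c
  have hQ : Q * Q' = 1 := Basis.toMatrix_mul_toMatrix_flip c s
  have hQ' : Q' * Q = 1 := Basis.toMatrix_mul_toMatrix_flip s c
  let M : G → Matrix (Fin (finrank k U) ⊕ Fin (finrank k W)) (Fin (finrank k U) ⊕ Fin (finrank k W)) k :=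
    fun g => LinearMap.toMatrix c c (Matrix.toLin' (ρ g : Matrix (Fin N) (Fin N) k))
  have hM : ∀ g, Q * (ρ g : Matrix (Fin N) (Fin N) k) * Q' = M g := by
    intro g
    have h2 := basis_toMatrix_mul_linearMap_toMatrix_mul_basis_toMatrix c s c s
      (Matrix.toLin' (ρ g : Matrix (Fin N) (Fin N) k))
    have h3 : LinearMap.toMatrix s s (Matrix.toLin' (ρ g : Matrix (Fin N) (Fin N) k)) =
        (ρ g : Matrix (Fin N) (Fin N) k) := by
      rw [← LinearMap.toMatrix'_toLin' (ρ g : Matrix (Fin N) (Fin N) k), Matrix.toLin'_toMatrix']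
      rfl
    rw [h3] at h2
    exact h2
  have hM21 : ∀ g, (M g).toBlocks₂₁ = 0 := by
    intro g
    ext j i
    change LinearMap.toMatrix c c (Matrix.toLin' (ρ g : Matrix (Fin N) (Fin N) k)) (Sum.inr j) (Sum.inl i) = 0
    rw [LinearMap.toMatrix_apply]
    refine hrepr _ ?_ j
    rw [Matrix.toLin'_apply, hcl]
    exact hU g _ (bU i).2
  have hMf : ∀ g, M g = Matrix.fromBlocks (M g).toBlocks₁₁ (M g).toBlocks₁₂ 0 (M g).toBlocks₂₂ := by
    intro g
    rw [← hM21 g, Matrix.fromBlocks_toBlocks]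
  have hM1 : M 1 = 1 := by
    rw [← hM, map_one, Units.val_one, Matrix.mul_one, hQ]
  have hMm : ∀ g h, M (g * h) = M g * M h := by
    intro g h
    rw [← hM, ← hM, ← hM, map_mul, Units.val_mul, Matrix.mul_assoc (Q * (ρ g : Matrix (Fin N) (Fin N) k)) Q',
      ← Matrix.mul_assoc Q' (Q * (ρ h : Matrix (Fin N) (Fin N) k)) Q', ← Matrix.mul_assoc Q' Q, hQ', Matrix.one_mul]
    simp only [Matrix.mul_assoc]
  have hXm : ∀ g h, (M (g * h)).toBlocks₁₁ = (M g).toBlocks₁₁ * (M h).toBlocks₁₁ := by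
    intro g h
    rw [hMm, hMf g, hMf h, Matrix.fromBlocks_multiply]
    simp
  have hYm : ∀ g h, (M (g * h)).toBlocks₂₂ = (M g).toBlocks₂₂ * (M h).toBlocks₂₂ := by
    intro g h
    rw [hMm, hMf g, hMf h, Matrix.fromBlocks_multiply]
    simp
  have h11 : (M 1).toBlocks₁₁ = 1 := by
    rw [hM1, ← Matrix.fromBlocks_one, Matrix.toBlocks_fromBlocks₁₁]
  have h22 : (M 1).toBlocks₂₂ = 1 := by
    rw [hM1, ← Matrix.fromBlocks_one, Matrix.toBlocks_fromBlocks₂₂]
  let X : G →* GL (Fin (finrank k U)) k := MonoidHom.toHomUnits ⟨⟨fun g => (M g).toBlocks₁₁, h11⟩, hXm⟩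
  let Y : G →* GL (Fin (finrank k W)) k := MonoidHom.toHomUnits ⟨⟨fun g => (M g).toBlocks₂₂, h22⟩, hYm⟩
  refine ⟨finrank k U, finrank k W, X, Y, Q, Q', hUN, by omega, hQ, hQ', fun g => ?_, fun g => ?_⟩
  · have h2 : (M g).charpoly = (ρ g : Matrix (Fin N) (Fin N) k).charpoly := by
      rw [LinearMap.charpoly_toMatrix, Matrix.charpoly_toLin']
    rw [← h2, hMf g, Matrix.charpoly_fromBlocks_zero₂₁]
    rfl
  · exact ⟨(M g).toBlocks₁₂, by rw [hM]; exact hMf g⟩

end Run7.h55.FG
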